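import Pool.Agent.H22.Sub.Elim

/-!
# Coordinates in blocks, replacement of one block; fibres
-/

set_option autoImplicit false

namespace Pool.Agent.H40.Flag

open MvPolynomial Pool.Agent.H22.Sub

section Blocks

variable {I : Type} {β : I → Type} {i₀ : I}

/-- the block `i₀` of `x` is replaced by `w` -/
noncomputable def gl (i₀ : I) (x : (Σ i, β i) → ℂ) (w : β i₀ → ℂ) : (Σ i, β i) → ℂ :=
  glue (π := Sigma.fst) i₀ x (fun s => w (Equiv.sigmaSubtype i₀ s))

lemma gl_same (x : (Σ i, β i) → ℂ) (w : β i₀ → ℂ) (ρ : β i₀) : gl i₀ x w ⟨i₀, ρ⟩ = w ρ := by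
  have h := glue_of_eq (π := (Sigma.fst : (Σ i, β i) → I)) (i₀ := i₀) (x := x)
    (y := fun s => w (Equiv.sigmaSubtype i₀ s)) ⟨⟨i₀, ρ⟩, rfl⟩
  exact h

lemma gl_ne (x : (Σ i, β i) → ℂ) (w : β i₀ → ℂ) {i : I} (h : i ≠ i₀) (ρ : β i) :
    gl i₀ x w ⟨i, ρ⟩ = x ⟨i, ρ⟩ := glue_of_ne h

lemma gl_self (x : (Σ i, β i) → ℂ) : gl i₀ x (fun ρ => x ⟨i₀, ρ⟩) = x := by
  funext s
  obtain ⟨i, ρ⟩ := s
  by_cases h : i = i₀
  · subst h
    rw [gl_same]
  · rw [gl_ne _ _ h]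

lemma gl_gl (x : (Σ i, β i) → ℂ) (w w' : β i₀ → ℂ) : gl i₀ (gl i₀ x w) w' = gl i₀ x w' := by
  funext s
  obtain ⟨i, ρ⟩ := s
  by_cases h : i = i₀
  · subst h
    rw [gl_same, gl_same]
  · rw [gl_ne _ _ h, gl_ne _ _ h, gl_ne _ _ h]

lemma gl_eq_self {x : (Σ i, β i) → ℂ} {w : β i₀ → ℂ} (h : ∀ ρ, w ρ = x ⟨i₀, ρ⟩) :
    gl i₀ x w = x := by
  have : w = fun ρ => x ⟨i₀, ρ⟩ := funext h
  rw [this, gl_self]

lemma eval_gl_of_zero (x : (Σ i, β i) → ℂ) {P : MvPolynomial (Σ i, β i) ℂ} {b : I → ℤ}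
    (hP : MultiHom Sigma.fst P b) (hb : b i₀ = 0) (w : β i₀ → ℂ) :
    eval (gl i₀ x w) P = eval x P := eval_glue_of_zero x hP hb _

/-- the coefficients of a polynomial which is linear in the block `i₀` -/
noncomputable def lc (i₀ : I) (P : MvPolynomial (Σ i, β i) ℂ) (ρ : β i₀) :
    MvPolynomial (Σ i, β i) ℂ :=
  Mp Sigma.fst i₀ P ⟨⟨i₀, ρ⟩, rfl⟩

lemma lc_hom {P : MvPolynomial (Σ i, β i) ℂ} {b : I → ℤ} (hP : MultiHom Sigma.fst P b)
    (ρ : β i₀) : MultiHom Sigma.fst (lc i₀ P ρ) (dropHom i₀ b) := Mp_hom hP _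

lemma eval_gl_lin [Fintype (Σ i, β i)] [Fintype (β i₀)] {P : MvPolynomial (Σ i, β i) ℂ}
    {b : I → ℤ} (hP : MultiHom Sigma.fst P b) (hb : b i₀ = 1) (x : (Σ i, β i) → ℂ)
    (w : β i₀ → ℂ) : eval (gl i₀ x w) P = ∑ ρ, w ρ * eval x (lc i₀ P ρ) := by
  classical
  have := Fintype.ofEquiv (β i₀) (Equiv.sigmaSubtype (β := β) i₀).symm
  unfold gl
  rw [eval_glue_lin hP hb]
  refine Fintype.sum_equiv (Equiv.sigmaSubtype i₀) _ _ fun s => ?_
  obtain ⟨⟨i, ρ⟩, h⟩ := s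
  change i = i₀ at h
  subst h
  rfl

lemma eval_lc_gl (x : (Σ i, β i) → ℂ) (w : β i₀ → ℂ) (P : MvPolynomial (Σ i, β i) ℂ) (ρ : β i₀) :
    eval (gl i₀ x w) (lc i₀ P ρ) = eval x (lc i₀ P ρ) := eval_Mp_glue _ _ _ _

end Blocks

/-! ### fibres of the projection forgetting a factor -/

variable {S I : Type} {π : S → I} {X : Set (S → ℂ)} {i₀ : I} {A : Finset I}

/-- The fibres of the projection forgetting a factor at which a nef class is negative are
finite (helper22's proof for arbitrary `X`). -/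
theorem fib_finite [Finite S] (hX1 : ∀ x ∈ X, ∀ i ∈ A, ∃ s, π s = i ∧ x s ≠ 0)
    (hX2 : ∀ x ∈ X, ∀ s, π s ∉ A → x s = 0) {a : I → ℤ} (ha : IsNef π X a)
    (ha0 : ∀ i, i ∉ A → a i = 0) (hi₀ : i₀ ∈ A) (hneg : a i₀ < 0) {x : S → ℂ}
    (hx : x ∈ X) : FinPts π (fib π X i₀ x) := by
  classical
  by_contra hinf
  obtain ⟨C, hCF, hC⟩ := exists_curve_in (isSub_fib x) hinf
  apply ha C hC
  have hne : Nonempty S := ⟨(hX1 x hx i₀ hi₀).choose⟩
  choose! t ht1 ht2 using hX1 x hx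
  have hy1 : ∀ y ∈ C, ∀ i ∈ A, i ≠ i₀ → y (t i) ≠ 0 := by
    intro y hy i hi hi0
    obtain ⟨s, hs, hys⟩ := hX1 y (hCF hy).1 i hi
    have h1 := (hCF hy).2 s (t i) (by rw [hs, ht1 i hi]) (by rw [hs]; exact hi0)
    intro h0
    rw [h0, mul_zero] at h1
    exact (mul_ne_zero (ht2 i hi) hys) h1.symm
  obtain ⟨z₁, hz₁⟩ := hC.irred.1
  obtain ⟨z₂, hz₂, hz⟩ : ∃ z₂ ∈ C, ¬ SamePoint π z₁ z₂ := by
    by_contra hcon
    push Not at hcon
    exact hC.infinite ⟨{z₁}, Set.finite_singleton _, fun y hy => ⟨z₁, rfl, hcon y hy⟩⟩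
  obtain ⟨s₁, s₂, hs₁, hs₂, hs12⟩ : ∃ s₁ s₂, π s₁ = i₀ ∧ π s₂ = i₀ ∧
      z₁ s₁ * z₂ s₂ - z₁ s₂ * z₂ s₁ ≠ 0 := by
    by_contra hcon
    push Not at hcon
    obtain ⟨s₀, hs₀, hzs₀⟩ := hX1 z₁ (hCF hz₁).1 i₀ hi₀
    obtain ⟨s', hs', hzs'⟩ := hX1 z₂ (hCF hz₂).1 i₀ hi₀
    have h2 : z₂ s₀ ≠ 0 := by
      intro h0
      have h3 := hcon s₀ s' hs₀ hs'
      rw [h0, mul_zero, sub_zero] at h3
      exact (mul_ne_zero hzs₀ hzs') h3
    apply hz
    refine ⟨fun i => if i = i₀ then z₂ s₀ / z₁ s₀ else if i ∈ A then z₂ (t i) / z₁ (t i) else 1,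
      fun i => ?_, fun s => ?_⟩
    · beta_reduce
      split_ifs with h3 h4
      · exact div_ne_zero h2 hzs₀
      · exact div_ne_zero (hy1 z₂ hz₂ i h4 h3) (hy1 z₁ hz₁ i h4 h3)
      · exact one_ne_zero
    · beta_reduce
      split_ifs with h3 h4
      · have h5 := hcon s₀ s hs₀ h3
        rw [div_mul_eq_mul_div, eq_div_iff hzs₀]
        linear_combination h5
      · have h5 := (hCF hz₁).2 s (t (π s)) (by rw [ht1 _ h4]) h3
        have h6 := (hCF hz₂).2 s (t (π s)) (by rw [ht1 _ h4]) h3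
        have h7 := ht2 _ h4
        have h8 := hy1 z₁ hz₁ _ h4 h3
        rw [div_mul_eq_mul_div, eq_div_iff h8]
        apply mul_left_cancel₀ h7
        linear_combination -z₁ (t (π s)) * h6 + z₂ (t (π s)) * h5
      · rw [hX2 z₁ (hCF hz₁).1 s h4, hX2 z₂ (hCF hz₂).1 s h4, mul_zero]
  set L : MvPolynomial S ℂ := MvPolynomial.C (z₁ s₁) * MvPolynomial.X s₂ -
    MvPolynomial.C (z₁ s₂) * MvPolynomial.X s₁ with hL
  have hLe : ∀ y, eval y L = z₁ s₁ * y s₂ - z₁ s₂ * y s₁ := by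
    intro y
    rw [hL, map_sub, map_mul, map_mul, eval_C, eval_C, eval_X, eval_X]
  have hLh : MultiHom π L (cdeg π s₂) := multiHom_lin (by rw [hs₁, hs₂]) _ _
  refine ⟨1, le_rfl, fun y => (eval y L) ^ ((-a i₀).toNat) *
    ∏ i ∈ A.erase i₀, (y (t i)) ^ (-a i), ?_, ⟨z₂, hz₂, ?_⟩, ⟨z₁, hz₁, ?_⟩⟩
  · have h1 : IsSection π C ((-a i₀).toNat • cdeg π s₂) (fun y => (eval y L) ^ ((-a i₀).toNat)) :=
      (isSection_poly hLh).pow _
    have h2 : IsSection π C (∑ i ∈ A.erase i₀, (-a i) • cdeg π (t i))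
        (fun y => ∏ i ∈ A.erase i₀, (y (t i)) ^ (-a i)) := by
      refine IsSection.prod _ fun i hi => ?_
      obtain ⟨hi1, hi2⟩ := Finset.mem_erase.mp hi
      have h3 : IsSection π C (cdeg π (t i)) (fun y => y (t i)) :=
        (isSection_poly (multiHom_X (t i))).congr fun y _ => by rw [eval_X]
      exact h3.zpow (fun y hy => hy1 y hy i hi2 hi1) _
    have h3 : (-a i₀).toNat • cdeg π s₂ + ∑ i ∈ A.erase i₀, (-a i) • cdeg π (t i) =
        -(1 • a) := by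
      funext k
      rw [one_smul, Pi.add_apply, Pi.neg_apply, Finset.sum_apply, Pi.smul_apply]
      have h4 : ∀ i ∈ A.erase i₀, ((-a i) • cdeg π (t i)) k = if i = k then -a k else 0 := by
        intro i hi
        obtain ⟨hi1, hi2⟩ := Finset.mem_erase.mp hi
        rw [Pi.smul_apply]
        simp only [cdeg]
        rw [ht1 i hi2]
        by_cases hik : i = k
        · rw [if_pos hik, if_pos hik, hik]; simp
        · rw [if_neg hik, if_neg hik]; simp
      rw [Finset.sum_congr rfl h4, Finset.sum_ite_eq' (A.erase i₀) k]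
      simp only [cdeg]
      rw [hs₂]
      by_cases hk : i₀ = k
      · subst hk
        rw [if_pos rfl, if_neg (by simp)]
        simp only [nsmul_eq_mul, mul_one, add_zero]
        omega
      · rw [if_neg hk]
        by_cases hkA : k ∈ A
        · rw [if_pos (Finset.mem_erase.mpr ⟨fun h => hk h.symm, hkA⟩)]
          simp
        · rw [if_neg (fun h => hkA (Finset.mem_of_mem_erase h)), ha0 k hkA]
          simp
    have h5 := h1.mul h2
    rw [h3] at h5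
    exact h5
  · beta_reduce
    refine mul_ne_zero (pow_ne_zero _ ?_) (Finset.prod_ne_zero_iff.mpr fun i hi => ?_)
    · rw [hLe]; exact hs12
    · obtain ⟨hi1, hi2⟩ := Finset.mem_erase.mp hi
      exact zpow_ne_zero _ (hy1 z₂ hz₂ i hi2 hi1)
  · beta_reduce
    have h1 : eval z₁ L = 0 := by rw [hLe]; ring
    rw [h1, zero_pow (by omega), zero_mul]

/-- nonnegative classes are semiample -/
lemma semiample_of_nonneg (hX1 : ∀ x ∈ X, ∀ i ∈ A, ∃ s, π s = i ∧ x s ≠ 0) {a : I → ℤ}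
    (ha0 : ∀ i, i ∉ A → a i = 0) (ha : ∀ i ∈ A, 0 ≤ a i) : IsSemiample π X a := by
  classical
  intro x hx
  by_cases hne : Nonempty S
  · choose! t ht1 ht2 using hX1 x hx
    refine ⟨1, le_rfl, fun y => ∏ i ∈ A, (y (t i)) ^ (a i).toNat, ?_, ?_⟩
    · have h2 : IsSection π X (∑ i ∈ A, (a i).toNat • cdeg π (t i))
          (fun y => ∏ i ∈ A, (y (t i)) ^ (a i).toNat) := by
        refine IsSection.prod _ fun i hi => ?_
        have h3 : IsSection π X (cdeg π (t i)) (fun y => y (t i)) :=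
          (isSection_poly (multiHom_X (t i))).congr fun y _ => by rw [eval_X]
        exact h3.pow _
      have h3 : ∑ i ∈ A, (a i).toNat • cdeg π (t i) = 1 • a := by
        funext k
        rw [one_smul, Finset.sum_apply]
        have h4 : ∀ i ∈ A, ((a i).toNat • cdeg π (t i)) k = if i = k then a k else 0 := by
          intro i hi
          rw [Pi.smul_apply]
          simp only [cdeg]
          rw [ht1 i hi]
          by_cases hik : i = k
          · rw [if_pos hik, if_pos hik, hik]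
            have := ha k (by rw [← hik]; exact hi)
            simp only [nsmul_eq_mul, mul_one]
            omega
          · rw [if_neg hik, if_neg hik]; simp
        rw [Finset.sum_congr rfl h4, Finset.sum_ite_eq' A k]
        by_cases hk : k ∈ A
        · rw [if_pos hk]
        · rw [if_neg hk, ha0 k hk]
      rw [h3] at h2
      exact h2
    · exact Finset.prod_ne_zero_iff.mpr fun i hi => pow_ne_zero _ (ht2 i hi)
  · have hA : A = ∅ := by
      rw [Finset.eq_empty_iff_forall_notMem]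
      intro i hi
      exact hne ⟨(hX1 x hx i hi).choose⟩
    have h0 : 1 • a = 0 := by
      funext i
      rw [one_smul, ha0 i (by rw [hA]; exact Finset.notMem_empty i)]
      rfl
    refine ⟨1, le_rfl, fun _ => 1, ?_, one_ne_zero⟩
    rw [h0]
    exact IsSection.one

end Pool.Agent.H40.Flag
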