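import Pool.Agent.H22.Sub.Step
import Pool.Agent.H40.Flag.Blk

/-!
# Elimination of a block whose coordinates are given by polynomials in the other blocks
-/

set_option autoImplicit false

namespace Pool.Agent.H40.Flag

open MvPolynomial Pool.Agent.H22.Sub

variable {I : Type} {β : I → Type} {i₀ : I} {X X' : Set ((Σ i, β i) → ℂ)}
  {Y : β i₀ → MvPolynomial (Σ i, β i) ℂ} {δ : I → ℤ}

/-- The block `i₀` of the points of `X` is given, up to a scalar, by the polynomials `Y`, which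
do not involve it; `X'` is the set of points without the block. -/
structure Elim (i₀ : I) (X X' : Set ((Σ i, β i) → ℂ)) (Y : β i₀ → MvPolynomial (Σ i, β i) ℂ)
    (δ : I → ℤ) : Prop where
  hom : ∀ ρ, MultiHom Sigma.fst (Y ρ) δ
  deg : δ i₀ = 0
  ne : ∀ x ∈ X, ∃ ρ : β i₀, x ⟨i₀, ρ⟩ ≠ 0
  val : ∀ x ∈ X, ∃ l : ℂ, l ≠ 0 ∧ ∀ ρ, eval x (Y ρ) = l * x ⟨i₀, ρ⟩
  res : ∀ x ∈ X, gl i₀ x 0 ∈ X'
  zero : ∀ z ∈ X', ∀ ρ : β i₀, z ⟨i₀, ρ⟩ = 0
  ext : ∀ z ∈ X', ∃ w : β i₀ → ℂ, gl i₀ z w ∈ X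
  scale : ∀ x ∈ X, ∀ l : ℂ, l ≠ 0 → gl i₀ x (fun ρ => l * x ⟨i₀, ρ⟩) ∈ X

open Classical in
/-- the substitution -/
noncomputable def sgY (i₀ : I) (Y : β i₀ → MvPolynomial (Σ i, β i) ℂ) (s : Σ i, β i) :
    MvPolynomial (Σ i, β i) ℂ :=
  if h : s.1 = i₀ then Y (Equiv.sigmaSubtype i₀ ⟨s, h⟩) else MvPolynomial.X s

lemma pm_sgY (z : (Σ i, β i) → ℂ) : pm (sgY i₀ Y) z = gl i₀ z (fun ρ => eval z (Y ρ)) := by
  funext s
  change eval z (sgY i₀ Y s) = _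
  unfold sgY gl glue
  split_ifs with h
  · rfl
  · rw [eval_X]

lemma pm_rh' (z : (Σ i, β i) → ℂ) : pm (rh Sigma.fst i₀) z = gl i₀ z 0 := by
  funext s
  change eval z (rh Sigma.fst i₀ s) = _
  unfold rh gl glue
  split_ifs with h
  · rw [map_zero]; rfl
  · rw [eval_X]

theorem Elim.trans (E : Elim i₀ X X' Y δ) :
    Trans Sigma.fst Sigma.fst X X' (rh Sigma.fst i₀) (sgY i₀ Y) (dropHom i₀) (ph i₀ δ) where
  hρh s := by
    unfold rh
    split_ifs with h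
    · exact isWeightedHomogeneous_zero _ _ _
    · rw [dropHom_cdeg_ne h]; exact multiHom_X s
  hσh s := by
    rw [ph_apply]
    unfold sgY
    split_ifs with h
    · have h1 : cdeg Sigma.fst s i₀ = 1 := by simp only [cdeg]; rw [if_pos h]
      rw [h1, dropHom_cdeg_eq h, one_smul, zero_add]
      exact E.hom _
    · have h1 : cdeg Sigma.fst s i₀ = 0 := by simp only [cdeg]; rw [if_neg h]
      rw [h1, dropHom_cdeg_ne h, zero_smul, add_zero]
      exact multiHom_X s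
  hρ x hx := by
    rw [pm_rh']
    exact E.res x hx
  hσ z hz := by
    obtain ⟨w, hw⟩ := E.ext z hz
    obtain ⟨l, hl, h⟩ := E.val _ hw
    rw [pm_sgY]
    have h1 := E.scale _ hw l hl
    rw [gl_gl] at h1
    have h2 : (fun ρ => l * gl i₀ z w ⟨i₀, ρ⟩) = fun ρ => eval z (Y ρ) := by
      funext ρ
      rw [← h, eval_gl_of_zero z (E.hom ρ) E.deg]
    rwa [h2] at h1
  hρσ z hz := by
    rw [pm_sgY, pm_rh', gl_gl]
    exact gl_eq_self fun ρ => (E.zero z hz ρ).symm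
  hσρ x hx := by
    classical
    rw [pm_rh', pm_sgY, gl_gl]
    obtain ⟨l, hl, h⟩ := E.val x hx
    refine ⟨fun i => if i = i₀ then l else 1, fun i => ?_, fun s => ?_⟩
    · beta_reduce; split_ifs
      · exact hl
      · exact one_ne_zero
    · obtain ⟨i, ρ⟩ := s
      change gl i₀ x (fun ρ => (eval (gl i₀ x 0)) (Y ρ)) ⟨i, ρ⟩ =
        (if i = i₀ then l else 1) * x ⟨i, ρ⟩
      by_cases hi : i = i₀
      · subst hi
        rw [if_pos rfl, gl_same, eval_gl_of_zero x (E.hom ρ) E.deg, h]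
      · rw [if_neg hi, gl_ne _ _ hi, one_mul]

/-- the unit section -/
theorem Elim.unit (E : Elim i₀ X X' Y δ) {a : I → ℤ} (ha : a i₀ = -1) :
    ∃ u, IsSection Sigma.fst X (a - dropHom i₀ (ph i₀ δ a)) u ∧ ∀ x ∈ X, u x ≠ 0 := by
  classical
  have h1 : ∀ x : (Σ i, β i) → ℂ, ∃ l : ℂ, x ∈ X → (l ≠ 0 ∧ ∀ ρ, eval x (Y ρ) = l * x ⟨i₀, ρ⟩) := by
    intro x
    by_cases hx : x ∈ X
    · obtain ⟨l, hl⟩ := E.val x hx
      exact ⟨l, fun _ => hl⟩
    · exact ⟨0, fun h => absurd h hx⟩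
  choose u hu using h1
  refine ⟨u, fun x hx => ?_, fun x hx => (hu x hx).1⟩
  obtain ⟨ρ, hxs⟩ := E.ne x hx
  refine ⟨δ, cdeg Sigma.fst (⟨i₀, ρ⟩ : Σ i, β i), Y ρ, MvPolynomial.X ⟨i₀, ρ⟩, E.hom ρ,
    multiHom_X _, ?_, ?_, fun y hy hy0 => ?_⟩
  · funext i
    rw [Pi.add_apply, Pi.sub_apply]
    by_cases hi : i = i₀
    · subst hi
      rw [dropHom_self, ha, E.deg]
      have h3 : cdeg Sigma.fst (⟨i, ρ⟩ : Σ i, β i) i = 1 := by simp [cdeg]
      rw [h3]; ring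
    · rw [dropHom_ne _ hi, ph_apply, Pi.add_apply, dropHom_ne _ hi, Pi.smul_apply, ha]
      have h3 : cdeg Sigma.fst (⟨i₀, ρ⟩ : Σ i, β i) i = 0 := by
        simp only [cdeg]; rw [if_neg (fun h => hi h.symm)]
      rw [h3]
      simp
  · rwa [eval_X]
  · rw [eval_X] at hy0 ⊢
    rw [(hu y hy).2 ρ, mul_div_assoc, div_self hy0, mul_one]

end Pool.Agent.H40.Flag
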