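import Pool.Agent.H40.Flag.Defs
import Pool.Agent.H40.Flag.Elim
import Pool.Agent.H24.Ab.CardPos

/-!
# The elimination of a step of a flag variety
-/

set_option autoImplicit false

namespace Pool.Agent.H40.Flag

open MvPolynomial Pool.Agent.H22.Sub

variable {T I : Type} {n : T → ℕ} {t : I → T} {k : I → ℕ}

/-! ### the minors of a given size as polynomials -/

lemma mn_full {N : ℕ} (v : ℕ → Fin N → ℂ) (ρ : Fin N → Fin N) :
    mn v N ρ = Matrix.det (Matrix.of fun r s : Fin N => if ρ r = s then (1 : ℂ) else 0) *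
      mn v N id := by
  unfold mn
  rw [← Matrix.det_mul]
  congr 1
  funext r s
  rw [Matrix.of_apply, Matrix.mul_apply, Finset.sum_eq_single (ρ r)]
  · simp
  · intro b _ hb
    rw [Matrix.of_apply, if_neg (fun h => hb h.symm), zero_mul]
  · intro h
    exact absurd (Finset.mem_univ _) h

open Classical in
lemma exists_nb (hinj : ∀ i j, t i = t j → k i = k j → i = j)
    (hk : ∀ i, 0 < k i ∧ k i < n (t i)) (A : Finset I) (τ : T) (κ : ℕ)
    (h : κ = 0 ∨ κ = n τ ∨ ∃ i ∈ A, t i = τ ∧ k i = κ) :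
    ∃ P : (Fin κ → Fin (n τ)) → MvPolynomial (Crd n t k) ℂ,
      (∀ ρ, MultiHom Sigma.fst (P ρ) (fun i => if i ∈ A ∧ t i = τ ∧ k i = κ then 1 else 0)) ∧
      ∀ (v : ∀ τ, ℕ → Fin (n τ) → ℂ) (c : I → ℂ) (z : Crd n t k → ℂ), (∀ τ, IsFrame (v τ)) →
        (∀ i ∈ A, c i ≠ 0) → (∀ i ∈ A, ∀ ρ, z ⟨i, ρ⟩ = c i * mn (v (t i)) (k i) ρ) →
          ∃ C : ℂ, C ≠ 0 ∧ ∀ ρ, eval z (P ρ) = C * mn (v τ) κ ρ := by
  rcases h with rfl | rfl | ⟨i', hi', rfl, rfl⟩
  · refine ⟨fun _ => 1, fun ρ => ?_, fun v c z hv hc hz => ⟨1, one_ne_zero, fun ρ => ?_⟩⟩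
    · have h : (fun i : I => if i ∈ A ∧ t i = τ ∧ k i = 0 then (1 : ℤ) else 0) = 0 := by
        funext i
        rw [if_neg (fun h => absurd h.2.2 (by have := (hk i).1; omega))]
        rfl
      rw [h]
      exact multiHom_one
    · unfold mn
      simp
  · refine ⟨fun ρ => MvPolynomial.C (Matrix.det (Matrix.of fun r s : Fin (n τ) =>
      if ρ r = s then (1 : ℂ) else 0)), fun ρ => ?_, fun v c z hv hc hz =>
        ⟨(mn (v τ) (n τ) id)⁻¹, inv_ne_zero (hv τ), fun ρ => ?_⟩⟩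
    · have h : (fun i : I => if i ∈ A ∧ t i = τ ∧ k i = n τ then (1 : ℤ) else 0) = 0 := by
        funext i
        rw [if_neg]
        · rfl
        · rintro ⟨-, h1, h2⟩
          have := (hk i).2
          rw [h1] at this
          omega
      rw [h]
      exact isWeightedHomogeneous_C _ _
    · rw [eval_C, mn_full (v τ) ρ]
      have := hv τ
      unfold IsFrame at this
      field_simp
  · refine ⟨fun ρ => MvPolynomial.X ⟨i', ρ⟩, fun ρ => ?_, fun v c z hv hc hz =>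
        ⟨c i', hc i' hi', fun ρ => ?_⟩⟩
    · have h : (fun i : I => if i ∈ A ∧ t i = t i' ∧ k i = k i' then (1 : ℤ) else 0) =
          cdeg Sigma.fst (⟨i', ρ⟩ : Crd n t k) := by
        funext i
        simp only [cdeg]
        by_cases hi : i' = i
        · subst hi
          rw [if_pos ⟨hi', rfl, rfl⟩, if_pos rfl]
        · rw [if_neg (fun h => hi (hinj i i' h.2.1 h.2.2).symm), if_neg hi]
      rw [h]
      exact multiHom_X _
    · rw [eval_X]
      exact hz i' hi' ρ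

/-! ### the number of equations -/

lemma dfm_zero {N : ℕ} (v : ℕ → Fin N → ℂ) (p b q : ℕ) :
    dfm v p b q (0 : Fin (b - p) × Fin (q - b) → ℂ) = v := by
  funext s i
  unfold dfm
  split_ifs with h
  · simp
  · rfl

variable {A : Finset I} {J : Type} {F : J → MvPolynomial (Crd n t k) ℂ} {d : J → I → ℕ} {i₀ : I}

theorem card_ge [Finite J] (hF : ∀ j, MultiHom Sigma.fst (F j) (fun i => (d j i : ℤ)))
    {v : ℕ → Fin (n (t i₀)) → ℂ} {c : ℂ} {x : Crd n t k → ℂ}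
    (hx : ∀ ρ, x ⟨i₀, ρ⟩ = c * mn v (k i₀) ρ) (hx0 : ∀ j, eval x (F j) = 0) {p q : ℕ}
    (hfin : {ζ | ∀ j, eval (gl i₀ x (fun ρ => c * mn (dfm v p (k i₀) q ζ) (k i₀) ρ))
      (F j) = 0}.Finite) :
    (k i₀ - p) * (q - k i₀) ≤ Nat.card {j // d j i₀ ≠ 0} := by
  classical
  by_contra hcon
  push Not at hcon
  choose G hG using fun ρ => exists_dfm_poly v p (k i₀) q ρ
  set Hs : {j // d j i₀ ≠ 0} → MvPolynomial (Fin (k i₀ - p) × Fin (q - k i₀)) ℂ := fun j =>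
    aeval (fun s : Crd n t k => if h : s.1 = i₀ then
      MvPolynomial.C c * G (Equiv.sigmaSubtype i₀ ⟨s, h⟩) else MvPolynomial.C (x s)) (F j.1) with hHs
  have hval : ∀ j ζ, eval ζ (Hs j) =
      eval (gl i₀ x (fun ρ => c * mn (dfm v p (k i₀) q ζ) (k i₀) ρ)) (F j.1) := by
    intro j ζ
    rw [hHs]
    simp only
    rw [eval_comp]
    congr 2
    funext s
    unfold gl glue
    split_ifs with h
    · rw [map_mul, eval_C, hG]
    · rw [eval_C]
  have h0 : gl i₀ x (fun ρ => c * mn (dfm v p (k i₀) q 0) (k i₀) ρ) = x := by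
    refine gl_eq_self fun ρ => ?_
    rw [dfm_zero, hx]
  have hinf := Pool.Agent.H24.Ab.infinite_common_zero Hs 0 (fun j => by rw [hval, h0, hx0]) 1
    (by simp) (by
      rw [Nat.card_eq_fintype_card (α := Fin (k i₀ - p) × Fin (q - k i₀)), Fintype.card_prod,
        Fintype.card_fin, Fintype.card_fin]
      exact hcon)
  refine hinf (hfin.subset fun ζ hζ j => ?_)
  by_cases hj : d j i₀ = 0
  · rw [eval_gl_of_zero x (hF j) (by rw [hj]; rfl)]
    exact hx0 j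
  · rw [← hval ⟨j, hj⟩]
    exact hζ.1 ⟨j, hj⟩

/-! ### the elimination -/

open Classical in
/-- the multidegree of the elimination formula -/
noncomputable def dlt (A : Finset I) (t : I → T) (k : I → ℕ) (d : J → I → ℕ) (i₀ : I) (p q : ℕ)
    {m : ℕ} (e : Fin m → {j // d j i₀ ≠ 0}) : I → ℤ :=
  ∑ j, dropHom i₀ (fun i => (d (e j).1 i : ℤ)) +
    (q - k i₀) • (fun i => if i ∈ A.erase i₀ ∧ t i = t i₀ ∧ k i = p then 1 else 0) +
    (k i₀ - p) • (fun i => if i ∈ A.erase i₀ ∧ t i = t i₀ ∧ k i = q then 1 else 0)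

open Classical in
theorem exists_elimination [Fintype I]
    (hinj : ∀ i j, t i = t j → k i = k j → i = j)
    (hk : ∀ i, 0 < k i ∧ k i < n (t i))
    (hF : ∀ j, MultiHom Sigma.fst (F j) (fun i => (d j i : ℤ))) (hi₀ : i₀ ∈ A)
    (hone : ∀ j, d j i₀ ≠ 0 → d j i₀ = 1) {p q : ℕ}
    (hN : Nbr A n t k (t i₀) (k i₀) p q)
    (hfin : ∀ x ∈ LocF A F, FinPts Sigma.fst (fib Sigma.fst (LocF A F) i₀ x))
    {m : ℕ} (e : Fin m ≃ {j // d j i₀ ≠ 0})
    (hcase : (k i₀ = p + 1 ∧ q = p + 1 + m) ∨ (k i₀ = p + m ∧ q = p + m + 1)) :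
    ∃ Y : (Fin (k i₀) → Fin (n (t i₀))) → MvPolynomial (Crd n t k) ℂ,
      Elim i₀ (LocF A F) (LocF (A.erase i₀) (fun j : {j // d j i₀ = 0} => F j.1)) Y
        (dlt A t k d i₀ p q e) := by
  classical
  have hqn : q ≤ n (t i₀) := hN.high.2 (Or.inl rfl)
  have hbq : k i₀ ≤ q := by rcases hcase with h | h <;> omega
  have hp : p = 0 ∨ p = n (t i₀) ∨ ∃ i ∈ A.erase i₀, t i = t i₀ ∧ k i = p := by
    rcases hN.low.1 with h | ⟨i, hi, h1, h2, h3⟩
    · exact Or.inl h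
    · exact Or.inr (Or.inr ⟨i, Finset.mem_erase.mpr ⟨by rintro rfl; omega, hi⟩, h1, h2⟩)
  have hq : q = 0 ∨ q = n (t i₀) ∨ ∃ i ∈ A.erase i₀, t i = t i₀ ∧ k i = q := by
    rcases hN.high.1 with h | ⟨i, hi, h1, h2, h3⟩
    · exact Or.inr (Or.inl h)
    · exact Or.inr (Or.inr ⟨i, Finset.mem_erase.mpr ⟨by rintro rfl; omega, hi⟩, h1, h2⟩)
  obtain ⟨P, hPh, hPv⟩ := exists_nb hinj hk (A.erase i₀) (t i₀) p hp
  obtain ⟨Q, hQh, hQv⟩ := exists_nb hinj hk (A.erase i₀) (t i₀) q hq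
  obtain ⟨Y, hYh, -, hYv⟩ := exists_elim (π := (Sigma.fst : Crd n t k → I)) hcase hqn P Q
    (fun j => lc i₀ (F (e j).1)) hPh hQh (fun j ρ => lc_hom (hF (e j).1) ρ)
  -- the equations as linear forms
  have hlin : ∀ (j : Fin m) (x : Crd n t k → ℂ) (w : (Fin (k i₀) → Fin (n (t i₀))) → ℂ),
      eval (gl i₀ x w) (F (e j).1) = ∑ ρ, w ρ * eval x (lc i₀ (F (e j).1) ρ) := fun j x w =>
    eval_gl_lin (hF (e j).1) (by rw [hone _ (e j).2]; rfl) x w
  have hlin' : ∀ (j : Fin m) (x : Crd n t k → ℂ) (w : (Fin (k i₀) → Fin (n (t i₀))) → ℂ) (l : ℂ),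
      l ≠ 0 → (eval (gl i₀ x (fun ρ => l * w ρ)) (F (e j).1) = 0 ↔
        ∑ ρ, eval x (lc i₀ (F (e j).1) ρ) * w ρ = 0) := by
    intro j x w l hl
    have h1 : ∑ ρ, l * w ρ * eval x (lc i₀ (F (e j).1) ρ) =
        l * ∑ ρ, eval x (lc i₀ (F (e j).1) ρ) * w ρ := by
      rw [Finset.mul_sum]
      exact Finset.sum_congr rfl fun ρ _ => by ring
    rw [hlin, h1]
    simp [hl]
  -- the value of `Y`
  have hval : ∀ x ∈ LocF A F, ∃ l : ℂ, l ≠ 0 ∧ ∀ ρ, eval x (Y ρ) = l * x ⟨i₀, ρ⟩ := by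
    rintro x hx
    obtain ⟨⟨v, c, hvc⟩, hxF⟩ := id hx
    have hc0 := hvc.ne i₀ hi₀
    obtain ⟨C, hC, hC1⟩ := hPv v c x hvc.frame (fun i hi => hvc.ne i (Finset.mem_of_mem_erase hi))
      (fun i hi => hvc.eq i (Finset.mem_of_mem_erase hi))
    obtain ⟨C', hC', hC'1⟩ := hQv v c x hvc.frame
      (fun i hi => hvc.ne i (Finset.mem_of_mem_erase hi))
      (fun i hi => hvc.eq i (Finset.mem_of_mem_erase hi))
    have hxself : gl i₀ x (fun ρ => c i₀ * mn (v (t i₀)) (k i₀) ρ) = x :=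
      gl_eq_self fun ρ => (hvc.eq i₀ hi₀ ρ).symm
    obtain ⟨l, hl, hl1⟩ := hYv x (v (t i₀)) C C' (hvc.frame _) hC hC' hC1 hC'1
      (fun j => (hlin' j x _ (c i₀) hc0).mp (by rw [hxself]; exact hxF _))
      ((finite_dfm hinj hvc hi₀ hN hbq hqn (hfin x hx)).subset fun ζ hζ j => by
        by_cases hj : d j i₀ = 0
        · rw [eval_gl_of_zero x (hF j) (by rw [hj]; rfl)]
          exact hxF j
        · have h1 := hζ (e.symm ⟨j, hj⟩)
          have h2 := (hlin' (e.symm ⟨j, hj⟩) x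
            (fun ρ => mn (dfm (v (t i₀)) p (k i₀) q ζ) (k i₀) ρ) (c i₀) hc0).mpr h1
          rwa [Equiv.apply_symm_apply] at h2)
    refine ⟨l / c i₀, div_ne_zero hl hc0, fun ρ => ?_⟩
    rw [hl1, hvc.eq i₀ hi₀]
    field_simp
  refine ⟨Y, ⟨hYh, ?_, ?_, hval, ?_, ?_, ?_, ?_⟩⟩
  · -- the degree
    unfold dlt
    rw [Pi.add_apply, Pi.add_apply, Finset.sum_apply, Pi.smul_apply, Pi.smul_apply,
      if_neg (fun h => Finset.notMem_erase i₀ A h.1), if_neg (fun h => Finset.notMem_erase i₀ A h.1),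
      smul_zero, smul_zero, add_zero, add_zero]
    exact Finset.sum_eq_zero fun j _ => dropHom_self _
  · rintro x ⟨⟨v, c, hvc⟩, -⟩
    obtain ⟨ρ, hρ⟩ := mn_ne (hvc.frame (t i₀)) (hk i₀).2.le
    exact ⟨ρ, by rw [hvc.eq i₀ hi₀]; exact mul_ne_zero (hvc.ne i₀ hi₀) hρ⟩
  · rintro x ⟨⟨v, c, hvc⟩, hxF⟩
    refine ⟨⟨v, c, hvc.erase i₀⟩, fun j => ?_⟩
    rw [eval_gl_of_zero x (hF j.1) (by rw [j.2]; rfl)]
    exact hxF j.1
  · rintro z ⟨⟨v, c, hvc⟩, -⟩ ρ
    exact hvc.out i₀ (Finset.notMem_erase i₀ A) ρ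
  · rintro z ⟨⟨v, c, hvc⟩, hzF⟩
    obtain ⟨v', hv', hv'1⟩ := exists_solution hcase (hvc.frame (t i₀)) hqn
      (fun j ρ => eval z (lc i₀ (F (e j).1) ρ))
    refine ⟨fun ρ => 1 * mn v' (k i₀) ρ, ?_, fun j => ?_⟩
    · have hz : gl i₀ z 0 = z := gl_eq_self fun ρ =>
        (hvc.out i₀ (Finset.notMem_erase i₀ A) ρ).symm
      obtain ⟨c', hc'⟩ := IsFlag.replace hinj (x := z) (by rw [hz]; exact hvc) hN hv'
        one_ne_zero hi₀
      exact ⟨_, c', hc'⟩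
    · by_cases hj : d j i₀ = 0
      · rw [eval_gl_of_zero z (hF j) (by rw [hj]; rfl)]
        exact hzF ⟨j, hj⟩
      · have h2 := (hlin' (e.symm ⟨j, hj⟩) z (fun ρ => mn v' (k i₀) ρ) 1 one_ne_zero).mpr
          (hv'1 (e.symm ⟨j, hj⟩))
        rwa [Equiv.apply_symm_apply] at h2
  · rintro x ⟨⟨v, c, hvc⟩, hxF⟩ l hl
    refine ⟨⟨v, fun i => if i = i₀ then l * c i else c i, hvc.frame, fun i hi => ?_,
      fun i hi ρ => ?_, fun i hi ρ => ?_⟩, fun j => ?_⟩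
    · beta_reduce
      split_ifs
      · exact mul_ne_zero hl (hvc.ne i hi)
      · exact hvc.ne i hi
    · beta_reduce
      by_cases h : i = i₀
      · subst h
        rw [gl_same, if_pos rfl, hvc.eq i hi, mul_assoc]
      · rw [gl_ne _ _ h, if_neg h, hvc.eq i hi]
    · have h : i ≠ i₀ := by rintro rfl; exact hi hi₀
      rw [gl_ne _ _ h, hvc.out i hi]
    · by_cases hj : d j i₀ = 0
      · rw [eval_gl_of_zero x (hF j) (by rw [hj]; rfl)]
        exact hxF j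
      · have h2 := (hlin' (e.symm ⟨j, hj⟩) x (fun ρ => x ⟨i₀, ρ⟩) l hl)
        have h3 := (hlin' (e.symm ⟨j, hj⟩) x (fun ρ => x ⟨i₀, ρ⟩) 1 one_ne_zero)
        rw [Equiv.apply_symm_apply] at h2 h3
        refine h2.mpr (h3.mp ?_)
        simp only [one_mul]
        rw [gl_self]
        exact hxF j

end Pool.Agent.H40.Flag
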