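import Pool.Agent.H40.Flag.Wedge

/-!
# Elimination of a step: first case, the step is one above the previous one
-/

set_option autoImplicit false

namespace Pool.Agent.H40.Flag

open Matrix

variable {N : ℕ}

/-- Two frames which agree outside the positions `s` with `p ≤ s < q` and have the same spans of
the first `k` vectors for `k ≤ p` and for `k ≥ q`. -/
structure Adj (p q : ℕ) (v v' : ℕ → Fin N → ℂ) : Prop where
  frame : IsFrame v'
  low : ∀ k, k ≤ p → ∀ ρ : Fin k → Fin N, mn v' k ρ = mn v k ρ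
  high : ∃ ε : ℂ, ε ≠ 0 ∧ ∀ k, q ≤ k → ∀ ρ : Fin k → Fin N, mn v' k ρ = ε * mn v k ρ
  fix : ∀ s, s < p ∨ q ≤ s → v' s = v s
  span : ∀ s, s < q → v' s ∈ Submodule.span ℂ (v '' {x | x < q})

lemma Adj.trans {p q : ℕ} {v v' v'' : ℕ → Fin N → ℂ} (h : Adj p q v v') (h' : Adj p q v' v'') :
    Adj p q v v'' := by
  obtain ⟨ε, hε, h1⟩ := h.high
  obtain ⟨ε', hε', h2⟩ := h'.high
  refine ⟨h'.frame, fun k hk ρ => by rw [h'.low k hk, h.low k hk], ⟨ε' * ε, mul_ne_zero hε' hε,
    fun k hk ρ => by rw [h2 k hk, h1 k hk, mul_assoc]⟩,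
    fun s hs => by rw [h'.fix s hs, h.fix s hs], fun s hs => ?_⟩
  refine (Submodule.span_le.mpr ?_) (h'.span s hs)
  rintro _ ⟨x, hx, rfl⟩
  exact h.span x hx

lemma adj_dfm {p b q : ℕ} {v : ℕ → Fin N → ℂ} (hv : IsFrame v) (hq : q ≤ N)
    (z : Fin (b - p) × Fin (q - b) → ℂ) : Adj p q v (dfm v p b q z) := by
  refine ⟨dfm_frame hv hq z, fun _ hk ρ => dfm_low z hk ρ, ⟨1, one_ne_zero,
    fun _ hk ρ => by rw [dfm_high z hk, one_mul]⟩, fun s hs => ?_, fun s hs => ?_⟩
  · unfold dfm
    by_cases h : p ≤ s ∧ s < b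
    · rw [dif_pos h]
      funext i
      rw [Finset.sum_eq_zero, add_zero]
      intro d _
      exact absurd d.2 (by omega)
    · rw [dif_neg h]
  · unfold dfm
    split_ifs with h
    · have h1 : (fun i => v s i + ∑ d : Fin (q - b), z (⟨s - p, by omega⟩, d) * v (b + d) i) =
          v s + ∑ d : Fin (q - b), z (⟨s - p, by omega⟩, d) • v (b + d) := by
        funext i
        rw [Pi.add_apply, Finset.sum_apply]
        rfl
      rw [h1]
      refine Submodule.add_mem _ (Submodule.subset_span ⟨s, hs, rfl⟩)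
        (Submodule.sum_mem _ fun d _ => Submodule.smul_mem _ _
          (Submodule.subset_span ⟨b + d, ?_, rfl⟩))
      have := d.2
      change b + d.1 < q
      omega
    · exact Submodule.subset_span ⟨s, hs, rfl⟩

lemma adj_swap {p q c d : ℕ} {v : ℕ → Fin N → ℂ} (hv : IsFrame v) (hq : q ≤ N) (hc : p ≤ c)
    (hc' : c < q) (hd : p ≤ d) (hd' : d < q) : Adj p q v (fun s => v (Equiv.swap c d s)) := by
  classical
  have hhigh : ∀ k, q ≤ k → ∀ ρ : Fin k → Fin N, mn (fun s => v (Equiv.swap c d s)) k ρ =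
      (if c = d then 1 else -1) * mn v k ρ := by
    intro k hk ρ
    by_cases hcd : c = d
    · subst hcd
      simp
    · rw [if_neg hcd]
      have h1 : (Matrix.of fun r s : Fin k => v (Equiv.swap c d s) (ρ r)) =
          (Matrix.of fun r s : Fin k => v s (ρ r)).submatrix id
            (Equiv.swap (⟨c, by omega⟩ : Fin k) ⟨d, by omega⟩) := by
        funext r s
        simp only [Matrix.of_apply, Matrix.submatrix_apply, id]
        congr 2
        by_cases h1 : s.1 = c
        · have : s = ⟨c, by omega⟩ := Fin.ext h1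
          rw [this, Equiv.swap_apply_left]
          simp
        · by_cases h2 : s.1 = d
          · have : s = ⟨d, by omega⟩ := Fin.ext h2
            rw [this, Equiv.swap_apply_right]
            simp
          · rw [Equiv.swap_apply_of_ne_of_ne h1 h2, Equiv.swap_apply_of_ne_of_ne
              (fun h => h1 (by rw [h])) (fun h => h2 (by rw [h]))]
      unfold mn
      rw [h1, Matrix.det_permute', Equiv.Perm.sign_swap (fun h => hcd (by simpa using h))]
      simp
  refine ⟨?_, ?_, ⟨if c = d then 1 else -1, by split_ifs <;> simp, hhigh⟩, fun s hs => ?_,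
    fun s hs => ?_⟩
  · unfold IsFrame
    rw [hhigh N hq]
    exact mul_ne_zero (by split_ifs <;> simp) hv
  · intro k hk ρ
    refine mn_congr (fun s hs => ?_) ρ
    rw [Equiv.swap_apply_of_ne_of_ne (by omega) (by omega)]
  · rw [Equiv.swap_apply_of_ne_of_ne (by omega) (by omega)]
  · refine Submodule.subset_span ⟨_, ?_, rfl⟩
    change Equiv.swap c d s < q
    rw [Equiv.swap_apply_def]
    split_ifs <;> assumption

section Ring

variable {R : Type} [CommRing R] {p m : ℕ}

/-- the linear form `w ↦ L j (P ∧ w)` -/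
def lpA (P : (Fin p → Fin N) → R) (L : Fin m → (Fin (p + 1) → Fin N) → R) (j : Fin m)
    (s : Fin N) : R :=
  ∑ ρ : Fin (p + 1) → Fin N, L j ρ *
    ∑ r : Fin (p + 1), (-1) ^ (r.1 + p) * (if ρ r = s then P (fun r' => ρ (r.succAbove r')) else 0)

/-- the contraction of `Q` with the forms `lpA` -/
def yA (P : (Fin p → Fin N) → R) (Q : (Fin (p + 1 + m) → Fin N) → R)
    (L : Fin m → (Fin (p + 1) → Fin N) → R) (ρ : Fin (p + 1) → Fin N) : R :=
  ∑ σ : Fin m → Fin N, (∏ j, lpA P L j (σ j)) * Q (Fin.append ρ σ)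

end Ring

variable {p m : ℕ} {v : ℕ → Fin N → ℂ}

/-- the linear forms on the fibre -/
noncomputable def LamA (v : ℕ → Fin N → ℂ) (L : Fin m → (Fin (p + 1) → Fin N) → ℂ) (j : Fin m)
    (w : Fin N → ℂ) : ℂ :=
  ∑ ρ : Fin (p + 1) → Fin N, L j ρ * mn (Function.update v p w) (p + 1) ρ

lemma mn_update (w : Fin N → ℂ) (ρ : Fin (p + 1) → Fin N) :
    mn (Function.update v p w) (p + 1) ρ =
      ∑ r : Fin (p + 1), (-1) ^ (r.1 + p) * w (ρ r) * mn v p (fun r' => ρ (r.succAbove r')) := by
  classical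
  unfold mn
  rw [Matrix.det_succ_column _ (Fin.last p)]
  refine Finset.sum_congr rfl fun r _ => ?_
  rw [Matrix.of_apply, Fin.val_last, Function.update_self]
  congr 2
  funext r' s'
  rw [Matrix.submatrix_apply, Matrix.of_apply, Matrix.of_apply, Fin.succAbove_last,
    Fin.val_castSucc, Function.update_of_ne (by omega)]

lemma sum_lpA {P : (Fin p → Fin N) → ℂ} {C : ℂ} (hP : ∀ ρ, P ρ = C * mn v p ρ)
    (L : Fin m → (Fin (p + 1) → Fin N) → ℂ) (j : Fin m) (w : Fin N → ℂ) :
    ∑ i, lpA P L j i * w i = C * LamA v L j w := by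
  classical
  unfold lpA LamA
  simp only [Finset.sum_mul, Finset.mul_sum]
  rw [Finset.sum_comm]
  refine Finset.sum_congr rfl fun ρ _ => ?_
  rw [Finset.sum_comm, mn_update]
  simp only [Finset.mul_sum]
  refine Finset.sum_congr rfl fun r _ => ?_
  rw [Finset.sum_eq_single (ρ r)]
  · rw [if_pos rfl, hP]
    ring
  · intro i _ hi
    rw [if_neg (Ne.symm hi), mul_zero, mul_zero, zero_mul]
  · intro h
    exact absurd (Finset.mem_univ _) h

lemma LamA_add (L : Fin m → (Fin (p + 1) → Fin N) → ℂ) (j : Fin m) (w w' : Fin N → ℂ) :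
    LamA v L j (w + w') = LamA v L j w + LamA v L j w' := by
  unfold LamA
  rw [← Finset.sum_add_distrib]
  refine Finset.sum_congr rfl fun ρ _ => ?_
  rw [mn_update, mn_update, mn_update, ← mul_add, ← Finset.sum_add_distrib]
  congr 1
  refine Finset.sum_congr rfl fun r _ => ?_
  rw [Pi.add_apply]
  ring

lemma LamA_smul (L : Fin m → (Fin (p + 1) → Fin N) → ℂ) (j : Fin m) (c : ℂ) (w : Fin N → ℂ) :
    LamA v L j (c • w) = c * LamA v L j w := by
  unfold LamA
  rw [Finset.mul_sum]
  refine Finset.sum_congr rfl fun ρ _ => ?_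
  rw [mn_update, mn_update, Finset.mul_sum, Finset.mul_sum, Finset.mul_sum]
  refine Finset.sum_congr rfl fun r _ => ?_
  rw [Pi.smul_apply, smul_eq_mul]
  ring

lemma LamA_sum {K : Type} (A : Finset K) (L : Fin m → (Fin (p + 1) → Fin N) → ℂ) (j : Fin m)
    (c : K → ℂ) (w : K → Fin N → ℂ) :
    LamA v L j (∑ k ∈ A, c k • w k) = ∑ k ∈ A, c k * LamA v L j (w k) := by
  classical
  induction A using Finset.induction_on with
  | empty =>
    have := LamA_smul (v := v) L j 0 0
    simpa using this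
  | insert k A hk ih => rw [Finset.sum_insert hk, Finset.sum_insert hk, LamA_add, LamA_smul, ih]

lemma LamA_self (L : Fin m → (Fin (p + 1) → Fin N) → ℂ) (j : Fin m) :
    LamA v L j (v p) = ∑ ρ, L j ρ * mn v (p + 1) ρ := by
  unfold LamA
  rw [Function.update_eq_self]

lemma LamA_low (L : Fin m → (Fin (p + 1) → Fin N) → ℂ) (j : Fin m) {s : ℕ} (hs : s < p) :
    LamA v L j (v s) = 0 := by
  classical
  unfold LamA
  refine Finset.sum_eq_zero fun ρ _ => ?_
  have : mn (Function.update v p (v s)) (p + 1) ρ = 0 := by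
    unfold mn
    refine Matrix.det_zero_of_column_eq (i := (⟨s, by omega⟩ : Fin (p + 1))) (j := Fin.last p) ?_ ?_
    · intro h
      have := congrArg Fin.val h
      simp at this
      omega
    · intro r
      rw [Matrix.of_apply, Matrix.of_apply, Fin.val_last, Function.update_self,
        Function.update_of_ne (by simp only; omega)]
  rw [this, mul_zero]

/-- The value of `yA`. -/
theorem yA_eq {P : (Fin p → Fin N) → ℂ} {C : ℂ} (hP : ∀ ρ, P ρ = C * mn v p ρ)
    {Q : (Fin (p + 1 + m) → Fin N) → ℂ} {C' : ℂ} (hQ : ∀ ρ, Q ρ = C' * mn v (p + 1 + m) ρ)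
    (L : Fin m → (Fin (p + 1) → Fin N) → ℂ) (h0 : ∀ j, ∑ ρ, L j ρ * mn v (p + 1) ρ = 0)
    (ρ : Fin (p + 1) → Fin N) :
    yA P Q L ρ = (C' * (C ^ m * Matrix.det (Matrix.of fun j j' : Fin m =>
      LamA v L j (v (p + 1 + j'))))) * mn v (p + 1) ρ := by
  classical
  have h1 : yA P Q L ρ = C' * ∑ σ : Fin m → Fin N, (∏ j, lpA P L j (σ j)) *
      mn v (p + 1 + m) (Fin.append ρ σ) := by
    unfold yA
    rw [Finset.mul_sum]
    refine Finset.sum_congr rfl fun σ _ => ?_
    rw [hQ]
    ring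
  rw [h1, sum_append, ← Matrix.det_submatrix_equiv_self finSumFinEquiv]
  have h2 : (Matrix.of fun r s : Fin (p + 1 + m) => Fin.addCases (motive := fun _ => ℂ)
      (fun r' => v s (ρ r')) (fun j => ∑ i, lpA P L j i * v s i) r).submatrix finSumFinEquiv
        finSumFinEquiv = Matrix.fromBlocks (Matrix.of fun r s : Fin (p + 1) => v s (ρ r))
          (Matrix.of fun (r : Fin (p + 1)) (j : Fin m) => v (p + 1 + j) (ρ r)) 0
          (C • Matrix.of fun j j' : Fin m => LamA v L j (v (p + 1 + j'))) := by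
    funext r s
    rcases r with r | j <;> rcases s with s | j'
    · simp
    · simp
    · simp only [Matrix.submatrix_apply, finSumFinEquiv_apply_right, finSumFinEquiv_apply_left,
        Matrix.of_apply, Fin.addCases_right, Fin.val_castAdd, Matrix.fromBlocks_apply₂₁,
        Matrix.zero_apply]
      rw [sum_lpA hP]
      rcases Nat.lt_or_ge s.1 p with hs | hs
      · rw [LamA_low L j hs, mul_zero]
      · have : s.1 = p := by omega
        rw [this, LamA_self, h0 j, mul_zero]
    · simp only [Matrix.submatrix_apply, finSumFinEquiv_apply_right, Matrix.of_apply,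
        Fin.addCases_right, Fin.val_natAdd, Matrix.fromBlocks_apply₂₂, Matrix.smul_apply,
        smul_eq_mul]
      rw [sum_lpA hP]
  rw [h2, Matrix.det_fromBlocks_zero₂₁, Matrix.det_smul, Fintype.card_fin]
  unfold mn
  ring

/-- the deformation parameters -/
def zA (ζ : Fin m → ℂ) : Fin (p + 1 - p) × Fin (p + 1 + m - (p + 1)) → ℂ :=
  fun cd => ζ ⟨cd.2.1, by omega⟩

lemma dfmA (ζ : Fin m → ℂ) : dfm v p (p + 1) (p + 1 + m) (zA ζ) =
    Function.update v p (v p + ∑ j : Fin m, ζ j • v (p + 1 + j)) := by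
  funext s i
  unfold dfm
  by_cases hs : s = p
  · subst hs
    rw [dif_pos (by omega), Function.update_self, Pi.add_apply, Finset.sum_apply]
    congr 1
    simp only [zA, Pi.smul_apply, smul_eq_mul]
    refine Fintype.sum_equiv (finCongr (by omega)) _ _ fun d => ?_
    congr 1
  · rw [dif_neg (by omega), Function.update_of_ne hs]

lemma form_dfmA (L : Fin m → (Fin (p + 1) → Fin N) → ℂ) (j : Fin m) (ζ : Fin m → ℂ) :
    ∑ ρ, L j ρ * mn (dfm v p (p + 1) (p + 1 + m) (zA ζ)) (p + 1) ρ =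
      ∑ ρ, L j ρ * mn v (p + 1) ρ + ∑ j' : Fin m, ζ j' * LamA v L j (v (p + 1 + j')) := by
  have h := LamA_add (v := v) L j (v p) (∑ j' : Fin m, ζ j' • v (p + 1 + j'))
  rw [LamA_self, LamA_sum] at h
  rw [dfmA, ← h]
  rfl

lemma zA_inj {ζ ζ' : Fin m → ℂ} (h : (zA ζ : Fin (p + 1 - p) × Fin (p + 1 + m - (p + 1)) → ℂ) = zA ζ') :
    ζ = ζ' := by
  funext j
  have := congrFun h (⟨0, by omega⟩, ⟨j.1, by omega⟩)
  simpa [zA] using this

/-- If the solutions near a given one are finite in number, the coefficient is nonzero. -/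
theorem detA_ne (L : Fin m → (Fin (p + 1) → Fin N) → ℂ) (h0 : ∀ j, ∑ ρ, L j ρ * mn v (p + 1) ρ = 0)
    (hfin : {z | ∀ j, ∑ ρ, L j ρ * mn (dfm v p (p + 1) (p + 1 + m) z) (p + 1) ρ = 0}.Finite) :
    Matrix.det (Matrix.of fun j j' : Fin m => LamA v L j (v (p + 1 + j'))) ≠ 0 := by
  classical
  intro hdet
  obtain ⟨ζ, hζ0, hζ⟩ := Matrix.exists_mulVec_eq_zero_iff.mpr hdet
  obtain ⟨j₀, hj₀⟩ := Function.ne_iff.mp hζ0
  have h1 : ∀ τ : ℂ, (zA (τ • ζ) : Fin (p + 1 - p) × Fin (p + 1 + m - (p + 1)) → ℂ) ∈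
      {z | ∀ j, ∑ ρ, L j ρ * mn (dfm v p (p + 1) (p + 1 + m) z) (p + 1) ρ = 0} := by
    intro τ j
    rw [form_dfmA, h0, zero_add]
    have h2 := congrFun hζ j
    rw [Matrix.mulVec, dotProduct, Pi.zero_apply] at h2
    simp only [Pi.smul_apply, smul_eq_mul, mul_assoc]
    rw [← Finset.mul_sum]
    have h3 : ∑ i, ζ i * LamA v L j (v (p + 1 + i)) = 0 := by
      rw [← h2]
      exact Finset.sum_congr rfl fun i _ => by rw [Matrix.of_apply, mul_comm]
    rw [h3, mul_zero]
  refine Set.infinite_of_injective_forall_mem (f := fun τ : ℂ =>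
    (zA (τ • ζ) : Fin (p + 1 - p) × Fin (p + 1 + m - (p + 1)) → ℂ)) ?_ h1 hfin
  intro τ τ' h
  have h2 := congrFun (zA_inj h) j₀
  simp only [Pi.smul_apply, smul_eq_mul] at h2
  exact mul_right_cancel₀ hj₀ h2

/-- There is a solution in every fibre. -/
theorem existsA (hv : IsFrame v) (hq : p + 1 + m ≤ N) (L : Fin m → (Fin (p + 1) → Fin N) → ℂ) :
    ∃ v', Adj p (p + 1 + m) v v' ∧ ∀ j, ∑ ρ, L j ρ * mn v' (p + 1) ρ = 0 := by
  classical
  -- a nonzero vector in the span of `v p, …, v (p+m)`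
  obtain ⟨w, hw0, hw⟩ : ∃ w : Fin (m + 1) → ℂ, w ≠ 0 ∧
      ∀ j : Fin m, ∑ c : Fin (m + 1), LamA v L j (v (p + c)) * w c = 0 := by
    have hdet : Matrix.det (Matrix.of fun (r c : Fin (m + 1)) =>
        if h : r.1 < m then LamA v L ⟨r.1, h⟩ (v (p + c)) else 0) = 0 :=
      Matrix.det_eq_zero_of_row_eq_zero (Fin.last m) (fun c => by
        rw [Matrix.of_apply, dif_neg (by simp)])
    obtain ⟨w, hw0, hw⟩ := Matrix.exists_mulVec_eq_zero_iff.mpr hdet
    refine ⟨w, hw0, fun j => ?_⟩
    have h2 := congrFun hw j.castSucc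
    rw [Matrix.mulVec, dotProduct, Pi.zero_apply] at h2
    rw [← h2]
    refine Finset.sum_congr rfl fun c _ => ?_
    rw [Matrix.of_apply, dif_pos (by simp)]
    rfl
  obtain ⟨c₀, hc₀⟩ := Function.ne_iff.mp hw0
  set v₁ : ℕ → Fin N → ℂ := fun s => v (Equiv.swap p (p + c₀.1) s) with hv₁
  have hA1 : Adj p (p + 1 + m) v v₁ := adj_swap hv hq le_rfl (by omega) (by omega) (by omega)
  -- the vector `w`, expressed in the new frame
  set W : Fin N → ℂ := ∑ c : Fin (m + 1), w c • v (p + c) with hW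
  have hWL : ∀ j, LamA v L j W = 0 := by
    intro j
    rw [hW, LamA_sum, ← hw j]
    exact Finset.sum_congr rfl fun c _ => mul_comm _ _
  have hWL1 : ∀ j, LamA v₁ L j W = 0 := by
    intro j
    rw [← hWL j]
    unfold LamA
    refine Finset.sum_congr rfl fun ρ _ => ?_
    congr 1
    refine mn_congr (fun s hs => ?_) ρ
    by_cases h : s = p
    · subst h; rw [Function.update_self, Function.update_self]
    · rw [Function.update_of_ne h, Function.update_of_ne h, hv₁]
      simp only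
      rw [Equiv.swap_apply_of_ne_of_ne h (by omega)]
  -- coordinates
  set ζ : Fin m → ℂ := fun j => (if h : (p + 1 + j.1) = p + c₀.1 then w ⟨0, by omega⟩ else
    w ⟨j.1 + 1, by omega⟩) / w c₀ with hζ
  have hc₀' : w c₀ ≠ 0 := hc₀
  have hexp : w c₀ • (v₁ p + ∑ j : Fin m, ζ j • v₁ (p + 1 + j)) = W := by
    rw [smul_add, Finset.smul_sum, hW, Fin.sum_univ_succ]
    simp only [smul_smul]
    by_cases hc : c₀.1 = 0
    · have hv1 : v₁ = v := by
        funext s
        rw [hv₁, hc]
        simp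
      have hc2 : c₀ = 0 := Fin.ext hc
      rw [hv1]
      congr 1
      · rw [hc2]; simp
      · refine Finset.sum_congr rfl fun j _ => ?_
        rw [hζ]
        simp only
        rw [dif_neg (by omega), mul_div_cancel₀ _ hc₀']
        congr 2
        simp only [Fin.val_succ]; omega
    · obtain ⟨j₀, hj₀⟩ : ∃ j₀ : Fin m, j₀.succ = c₀ := by
        refine ⟨⟨c₀.1 - 1, by omega⟩, Fin.ext ?_⟩
        simp only [Fin.succ_mk]; omega
      have hj₀' : j₀.1 + 1 = c₀.1 := by rw [← hj₀]; simp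
      rw [← Finset.add_sum_erase _ _ (Finset.mem_univ j₀),
        ← Finset.add_sum_erase (Finset.univ : Finset (Fin m)) (fun i : Fin m =>
          w i.succ • v (p + (i.succ : Fin (m + 1)).1)) (Finset.mem_univ j₀)]
      have h1 : v₁ p = v (p + c₀.1) := by rw [hv₁]; simp
      have h2 : v₁ (p + 1 + j₀.1) = v p := by
        rw [hv₁]
        simp only
        rw [show p + 1 + j₀.1 = p + c₀.1 by omega, Equiv.swap_apply_right]
      have h3 : w c₀ * ζ j₀ = w 0 := by
        rw [hζ]
        simp only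
        rw [dif_pos (by omega), mul_div_cancel₀ _ hc₀']
        rfl
      rw [h1, h2, h3]
      have h4 : ∑ x ∈ Finset.univ.erase j₀, (w c₀ * ζ x) • v₁ (p + 1 + x.1) =
          ∑ x ∈ Finset.univ.erase j₀, w x.succ • v (p + (x.succ : Fin (m + 1)).1) := by
        refine Finset.sum_congr rfl fun x hx => ?_
        have hx' : x ≠ j₀ := (Finset.mem_erase.mp hx).1
        have hx2 : x.1 ≠ j₀.1 := fun h => hx' (Fin.ext h)
        rw [hζ, hv₁]
        simp only
        rw [dif_neg (by omega), mul_div_cancel₀ _ hc₀', Equiv.swap_apply_of_ne_of_ne (by omega)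
          (by omega)]
        congr 2
        simp only [Fin.val_succ]; omega
      rw [h4, hj₀]
      simp only [Fin.val_zero, add_zero]
      abel
  refine ⟨dfm v₁ p (p + 1) (p + 1 + m) (zA ζ), hA1.trans (adj_dfm hA1.frame hq _), fun j => ?_⟩
  have h5 := hWL1 j
  rw [← hexp, LamA_smul] at h5
  have h6 := (mul_eq_zero.mp h5).resolve_left hc₀'
  rw [dfmA]
  exact h6

end Pool.Agent.H40.Flag
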