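import Pool.Agent.H40.Flag.CaseA

/-!
# Elimination of a step: second case, the next step is one above the step
-/

set_option autoImplicit false

namespace Pool.Agent.H40.Flag

open Matrix

variable {N : ℕ}

section Ring

variable {R : Type} [CommRing R] {p : ℕ}

/-- wedge product with the vectors `u 0, …, u (m-1)` -/
def wdg (P : (Fin p → Fin N) → R) (u : ℕ → Fin N → R) : (m : ℕ) → (Fin (p + m) → Fin N) → R
  | 0 => P
  | m + 1 => fun ρ => ∑ r : Fin (p + m + 1),
      (-1) ^ (r.1 + (p + m)) * u m (ρ r) * wdg P u m (fun r' => ρ (r.succAbove r'))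

/-- contraction of `Q` with the form `L` -/
def ctr {b : ℕ} (Q : (Fin (b + 1) → Fin N) → R) (L : (Fin b → Fin N) → R) (s : Fin N) : R :=
  ∑ ρ : Fin b → Fin N, L ρ * Q (Fin.snoc ρ s)

/-- the wedge product of `P` with the contractions of `Q` with the forms `L j` -/
def yB {m : ℕ} (P : (Fin p → Fin N) → R) (Q : (Fin (p + m + 1) → Fin N) → R)
    (L : Fin m → (Fin (p + m) → Fin N) → R) : (Fin (p + m) → Fin N) → R :=
  wdg P (fun j => if h : j < m then ctr Q (L ⟨j, h⟩) else 0) m

end Ring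

/-- the vectors `v s` for `s < p` and the vectors `u j` after them -/
def cat (p : ℕ) (v u : ℕ → Fin N → ℂ) (s : ℕ) : Fin N → ℂ := if s < p then v s else u (s - p)

lemma wdg_eq {p : ℕ} {P : (Fin p → Fin N) → ℂ} {C : ℂ} {v : ℕ → Fin N → ℂ}
    (hP : ∀ ρ, P ρ = C * mn v p ρ) (u : ℕ → Fin N → ℂ) (m : ℕ) (ρ : Fin (p + m) → Fin N) :
    wdg P u m ρ = C * mn (cat p v u) (p + m) ρ := by
  induction m with
  | zero =>
    change P ρ = _
    rw [hP]
    congr 1
    exact (mn_congr (fun s hs => by unfold cat; rw [if_pos (show s < p by omega)]) ρ).symm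
  | succ m ih =>
    change ∑ r : Fin (p + m + 1), (-1) ^ (r.1 + (p + m)) * u m (ρ r) *
      wdg P u m (fun r' => ρ (r.succAbove r')) = C * mn (cat p v u) (p + m + 1) ρ
    have h1 : cat p v u = Function.update (cat p v u) (p + m) (u m) := by
      funext s
      by_cases hs : s = p + m
      · subst hs
        rw [Function.update_self]
        unfold cat
        rw [if_neg (by omega)]
        congr 1
        omega
      · rw [Function.update_of_ne hs]
    rw [h1, mn_update, Finset.mul_sum]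
    refine Finset.sum_congr rfl fun r _ => ?_
    rw [ih]
    ring

/-- the frame without the vector `v c` -/
def om (v : ℕ → Fin N → ℂ) (c : ℕ) (s : ℕ) : Fin N → ℂ := if s < c then v s else v (s + 1)

/-- the coefficients of the contraction -/
noncomputable def gam {b : ℕ} (v : ℕ → Fin N → ℂ) (L : (Fin b → Fin N) → ℂ) (c : ℕ) : ℂ :=
  (-1) ^ (b + c) * ∑ ρ, L ρ * mn (om v c) b ρ

lemma gam_last {b : ℕ} (v : ℕ → Fin N → ℂ) (L : (Fin b → Fin N) → ℂ) :
    gam v L b = ∑ ρ, L ρ * mn v b ρ := by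
  unfold gam
  rw [← two_mul, pow_mul, neg_one_sq, one_pow, one_mul]
  refine Finset.sum_congr rfl fun ρ _ => ?_
  congr 1
  exact mn_congr (fun s hs => by unfold om; rw [if_pos hs]) ρ

lemma mn_snoc {b : ℕ} (v : ℕ → Fin N → ℂ) (ρ : Fin b → Fin N) (s : Fin N) :
    mn v (b + 1) (Fin.snoc ρ s) =
      ∑ c : Fin (b + 1), (-1) ^ (b + c.1) * v c s * mn (om v c) b ρ := by
  unfold mn
  rw [Matrix.det_succ_row _ (Fin.last b)]
  refine Finset.sum_congr rfl fun c _ => ?_
  rw [Matrix.of_apply, Fin.val_last, Fin.snoc_last]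
  congr 2
  funext r' s'
  rw [Matrix.submatrix_apply, Matrix.of_apply, Matrix.of_apply, Fin.succAbove_last,
    Fin.snoc_castSucc]
  unfold om
  split_ifs with h
  · rw [Fin.succAbove_of_castSucc_lt _ _ (by rw [Fin.lt_def]; exact h)]
    rfl
  · rw [Fin.succAbove_of_le_castSucc _ _ (by rw [Fin.le_def]; exact not_lt.mp h)]
    rfl

lemma ctr_eq {b : ℕ} {v : ℕ → Fin N → ℂ} {Q : (Fin (b + 1) → Fin N) → ℂ} {C : ℂ}
    (hQ : ∀ ρ, Q ρ = C * mn v (b + 1) ρ) (L : (Fin b → Fin N) → ℂ) (s : Fin N) :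
    ctr Q L s = C * ∑ c : Fin (b + 1), gam v L c * v c s := by
  unfold ctr gam
  simp only [hQ, mn_snoc, Finset.mul_sum, Finset.sum_mul]
  rw [Finset.sum_comm]
  refine Finset.sum_congr rfl fun c _ => Finset.sum_congr rfl fun ρ _ => ?_
  ring

variable {p m : ℕ} {v : ℕ → Fin N → ℂ}

/-- The value of `yB`. -/
theorem yB_eq {P : (Fin p → Fin N) → ℂ} {C : ℂ} (hP : ∀ ρ, P ρ = C * mn v p ρ)
    {Q : (Fin (p + m + 1) → Fin N) → ℂ} {C' : ℂ} (hQ : ∀ ρ, Q ρ = C' * mn v (p + m + 1) ρ)
    (L : Fin m → (Fin (p + m) → Fin N) → ℂ) (h0 : ∀ j, ∑ ρ, L j ρ * mn v (p + m) ρ = 0)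
    (ρ : Fin (p + m) → Fin N) :
    yB P Q L ρ = (C * (C' ^ m * Matrix.det (Matrix.of fun c j : Fin m =>
      gam v (L j) (p + c)))) * mn v (p + m) ρ := by
  classical
  unfold yB
  rw [wdg_eq hP]
  set u : ℕ → Fin N → ℂ := fun j => if h : j < m then ctr Q (L ⟨j, h⟩) else 0 with hu
  have hum : ∀ j : Fin m, ∀ i, u j i = C' * ∑ c : Fin (p + m), gam v (L j) c * v c i := by
    intro j i
    rw [hu]
    simp only [Fin.is_lt, dif_pos, Fin.eta]
    rw [ctr_eq hQ, Fin.sum_univ_castSucc]
    simp only [Fin.val_castSucc, Fin.val_last]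
    rw [gam_last, h0 j, zero_mul, add_zero]
  rw [mn_comb (v := v) (v' := cat p v u) (Matrix.of fun s' s : Fin (p + m) =>
    Fin.addCases (motive := fun _ => ℂ) (fun s₁ => if s' = Fin.castAdd m s₁ then 1 else 0)
      (fun j => C' * gam v (L j) s') s)]
  · rw [← Matrix.det_submatrix_equiv_self finSumFinEquiv]
    have h2 : (Matrix.of fun s' s : Fin (p + m) =>
        Fin.addCases (motive := fun _ => ℂ) (fun s₁ => if s' = Fin.castAdd m s₁ then 1 else 0)
        (fun j => C' * gam v (L j) s') s).submatrix finSumFinEquiv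
        finSumFinEquiv = Matrix.fromBlocks (1 : Matrix (Fin p) (Fin p) ℂ)
          (Matrix.of fun (s' : Fin p) (j : Fin m) => C' * gam v (L j) s') 0
          (C' • Matrix.of fun c j : Fin m => gam v (L j) (p + c)) := by
      funext r s
      rcases r with r | c <;> rcases s with s | j
      · simp only [Matrix.submatrix_apply, finSumFinEquiv_apply_left, Matrix.of_apply,
          Fin.addCases_left, Matrix.fromBlocks_apply₁₁, Matrix.one_apply]
        by_cases hrs : r = s
        · rw [if_pos hrs, if_pos (by rw [hrs])]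
        · rw [if_neg hrs, if_neg (fun h => hrs (Fin.castAdd_injective _ _ h))]
      · simp
      · simp only [Matrix.submatrix_apply, finSumFinEquiv_apply_left, finSumFinEquiv_apply_right,
          Matrix.of_apply, Fin.addCases_left, Matrix.fromBlocks_apply₂₁, Matrix.zero_apply]
        rw [if_neg]
        intro h
        have := congrArg Fin.val h
        simp at this
        omega
      · simp
    rw [h2, Matrix.det_fromBlocks_zero₂₁, Matrix.det_one, Matrix.det_smul, Fintype.card_fin]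
    ring
  · intro s i
    refine Fin.addCases (fun s₁ => ?_) (fun j => ?_) s
    · simp only [Matrix.of_apply, Fin.addCases_left, Fin.val_castAdd]
      unfold cat
      rw [if_pos s₁.2, Finset.sum_eq_single (Fin.castAdd m s₁)]
      · simp
      · intro b _ hb
        rw [if_neg hb, mul_zero]
      · intro h
        exact absurd (Finset.mem_univ _) h
    · simp only [Matrix.of_apply, Fin.addCases_right, Fin.val_natAdd]
      unfold cat
      rw [if_neg (by omega), Nat.add_sub_cancel_left, hum, Finset.mul_sum]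
      exact Finset.sum_congr rfl fun c _ => by ring

/-- the deformation parameters -/
def zB (ζ : Fin m → ℂ) : Fin (p + m - p) × Fin (p + m + 1 - (p + m)) → ℂ :=
  fun cd => ζ ⟨cd.1.1, by omega⟩

lemma dfmB_ge (ζ : Fin m → ℂ) (c : Fin m) : dfm v p (p + m) (p + m + 1) (zB ζ) (p + c.1) =
    fun i => v (p + c.1) i + ζ c * v (p + m) i := by
  funext i
  unfold dfm
  rw [dif_pos (by omega)]
  congr 1
  have h1 : ∀ d : Fin (p + m + 1 - (p + m)), zB ζ
      ((⟨p + c.1 - p, by omega⟩ : Fin (p + m - p)), d) * v (p + m + d.1) i =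
        ζ c * v (p + m) i := by
    intro d
    have hd : d.1 = 0 := by omega
    unfold zB
    simp only
    rw [hd, add_zero]
    congr 2
    exact Fin.ext (by simp)
  rw [Finset.sum_congr rfl fun d _ => h1 d, Finset.sum_const, Finset.card_univ, Fintype.card_fin]
  rw [show p + m + 1 - (p + m) = 1 by omega, one_smul]

lemma dfmB_of {ζ : Fin m → ℂ} {s : ℕ} (hs : ¬ (p ≤ s ∧ s < p + m)) :
    dfm v p (p + m) (p + m + 1) (zB ζ) s = v s := by
  unfold dfm
  rw [dif_neg hs]

lemma zB_inj {ζ ζ' : Fin m → ℂ}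
    (h : (zB ζ : Fin (p + m - p) × Fin (p + m + 1 - (p + m)) → ℂ) = zB ζ') : ζ = ζ' := by
  funext j
  have := congrFun h (⟨j.1, by omega⟩, ⟨0, by omega⟩)
  simpa [zB] using this

/-- the forms on the deformations -/
lemma form_dfmB (hv : IsFrame v) (hq : p + m + 1 ≤ N) (L : (Fin (p + m) → Fin N) → ℂ)
    (ζ : Fin m → ℂ) :
    ∑ ρ, L ρ * mn (dfm v p (p + m) (p + m + 1) (zB ζ)) (p + m) ρ =
      gam v L (p + m) - ∑ c : Fin m, ζ c * gam v L (p + c) := by
  classical
  obtain ⟨g, hg⟩ := exists_dual hv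
  have hg' : ∀ (c d : ℕ) (hc : c < N) (hd : d < N), ∑ i, g ⟨c, hc⟩ i * v d i =
      if c = d then 1 else 0 := by
    intro c d hc hd
    have := hg ⟨c, hc⟩ ⟨d, hd⟩
    rw [this]
    simp
  set w := dfm v p (p + m) (p + m + 1) (zB ζ) with hw
  -- the contraction of the highest minors, computed with both frames
  set u : Fin N → ℂ := ctr (fun ρ => mn v (p + m + 1) ρ) L with hu
  have h1 : ∀ i, u i = ∑ c : Fin (p + m + 1), gam v L c * v c i := by
    intro i
    rw [hu, ctr_eq (v := v) (C := 1) (fun ρ => (one_mul _).symm), one_mul]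
  have h2 : ∀ i, u i = ∑ c : Fin (p + m + 1), gam w L c * w c i := by
    intro i
    rw [hu, ctr_eq (v := w) (C := 1) (fun ρ => by rw [one_mul, hw, dfm_high _ le_rfl]), one_mul]
  have hgu : ∀ (c : ℕ) (hc : c < p + m + 1), ∑ i, g ⟨c, by omega⟩ i * u i = gam v L c := by
    intro c hc
    have h3 : ∀ i, g ⟨c, by omega⟩ i * u i =
        ∑ c' : Fin (p + m + 1), gam v L c' * (g ⟨c, by omega⟩ i * v c' i) := by
      intro i
      rw [h1, Finset.mul_sum]
      exact Finset.sum_congr rfl fun c' _ => by ring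
    rw [Finset.sum_congr rfl fun i _ => h3 i, Finset.sum_comm]
    have h4 : ∀ c' : Fin (p + m + 1), ∑ i, gam v L c' * (g ⟨c, by omega⟩ i * v c' i) =
        if c = c'.1 then gam v L c' else 0 := by
      intro c'
      rw [← Finset.mul_sum, hg' c c'.1 (by omega) (by omega)]
      split_ifs <;> simp
    rw [Finset.sum_congr rfl fun c' _ => h4 c', Finset.sum_eq_single ⟨c, hc⟩]
    · rw [if_pos rfl]
    · intro c' _ hc'
      rw [if_neg]
      intro h
      exact hc' (Fin.ext h.symm)
    · intro h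
      exact absurd (Finset.mem_univ _) h
  -- the vectors of the new frame
  have hwv : ∀ (c : ℕ) (hc : c < N) (d : Fin (p + m)), ∑ i, g ⟨c, hc⟩ i * w d.1 i =
      (if c = d.1 then 1 else 0) + if c = p + m then
        (if h : p ≤ d.1 then ζ ⟨d.1 - p, by omega⟩ else 0) else 0 := by
    intro c hc d
    by_cases hd : p ≤ d.1
    · have h3 : d.1 = p + (⟨d.1 - p, by omega⟩ : Fin m).1 := by simp; omega
      have h4 : w d.1 = fun i => v d.1 i + ζ ⟨d.1 - p, by omega⟩ * v (p + m) i := by
        have h5 := dfmB_ge (v := v) (p := p) ζ ⟨d.1 - p, by omega⟩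
        rw [← h3] at h5
        exact h5
      rw [h4, dif_pos hd]
      simp only [mul_add, Finset.sum_add_distrib]
      rw [hg' c d.1 hc (by omega)]
      congr 1
      have h6 : ∀ i, g ⟨c, hc⟩ i * (ζ ⟨d.1 - p, by omega⟩ * v (p + m) i) =
          ζ ⟨d.1 - p, by omega⟩ * (g ⟨c, hc⟩ i * v (p + m) i) := fun i => by ring
      rw [Finset.sum_congr rfl fun i _ => h6 i, ← Finset.mul_sum, hg' c (p + m) hc (by omega)]
      split_ifs <;> simp
    · rw [hw, dfmB_of (by omega), hg' c d.1 hc (by omega), dif_neg hd]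
      split_ifs <;> simp
  have hwlast : w (p + m) = v (p + m) := by rw [hw, dfmB_of (by omega)]
  have hgw : ∀ (c : ℕ) (hc : c < p + m + 1), gam v L c =
      ∑ d : Fin (p + m), gam w L d * ((if c = d.1 then 1 else 0) + if c = p + m then
        (if h : p ≤ d.1 then ζ ⟨d.1 - p, by omega⟩ else 0) else 0) +
        gam w L (p + m) * (if c = p + m then 1 else 0) := by
    intro c hc
    rw [← hgu c hc]
    have h3 : ∀ i, g ⟨c, by omega⟩ i * u i =
        ∑ c' : Fin (p + m), gam w L c' * (g ⟨c, by omega⟩ i * w c' i) +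
          gam w L (p + m) * (g ⟨c, by omega⟩ i * v (p + m) i) := by
      intro i
      rw [h2, Fin.sum_univ_castSucc, mul_add, Finset.mul_sum]
      congr 1
      · exact Finset.sum_congr rfl fun c' _ => by rw [Fin.val_castSucc]; ring
      · rw [Fin.val_last, hwlast]; ring
    rw [Finset.sum_congr rfl fun i _ => h3 i, Finset.sum_add_distrib, Finset.sum_comm]
    congr 1
    · refine Finset.sum_congr rfl fun c' _ => ?_
      rw [← Finset.mul_sum, hwv]
    · rw [← Finset.mul_sum, hg' c (p + m) (by omega) (by omega)]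
  have hlow : ∀ c : Fin (p + m), gam w L c.1 = gam v L c.1 := by
    intro c
    rw [hgw c.1 (by omega), if_neg (by omega), mul_zero, add_zero, Finset.sum_eq_single c]
    · rw [if_pos rfl, if_neg (by omega), add_zero, mul_one]
    · intro d _ hd
      rw [if_neg (fun h => hd (Fin.ext h.symm)), if_neg (by omega), add_zero, mul_zero]
    · intro h
      exact absurd (Finset.mem_univ _) h
  have hhigh := hgw (p + m) (by omega)
  rw [if_pos rfl, mul_one] at hhigh
  rw [← gam_last w L, hhigh, Fin.sum_univ_add]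
  have h7 : ∀ c : Fin p, gam w L (Fin.castAdd m c).1 * ((if p + m = (Fin.castAdd m c).1 then 1 else 0) +
      if p + m = p + m then (if h : p ≤ (Fin.castAdd m c).1 then
        ζ ⟨(Fin.castAdd m c).1 - p, by omega⟩ else 0) else 0) = 0 := by
    intro c
    rw [if_neg (by simp; omega), if_pos rfl, dif_neg (by simp), add_zero, mul_zero]
  have h8 : ∀ c : Fin m, gam w L (Fin.natAdd p c).1 * ((if p + m = (Fin.natAdd p c).1 then 1 else 0) +
      if p + m = p + m then (if h : p ≤ (Fin.natAdd p c).1 then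
        ζ ⟨(Fin.natAdd p c).1 - p, by omega⟩ else 0) else 0) = ζ c * gam v L (p + c) := by
    intro c
    rw [hlow (Fin.natAdd p c), if_neg (by simp; omega), if_pos rfl, dif_pos (by simp), zero_add,
      mul_comm]
    exact congrArg₂ (· * ·) (congrArg ζ (Fin.ext (by simp))) rfl
  rw [Finset.sum_congr rfl fun c _ => h7 c, Finset.sum_congr rfl fun c _ => h8 c,
    Finset.sum_const_zero]
  ring

/-- If the solutions near a given one are finite in number, the coefficient is nonzero. -/
theorem detB_ne (hv : IsFrame v) (hq : p + m + 1 ≤ N) (L : Fin m → (Fin (p + m) → Fin N) → ℂ)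
    (h0 : ∀ j, ∑ ρ, L j ρ * mn v (p + m) ρ = 0)
    (hfin : {z | ∀ j, ∑ ρ, L j ρ * mn (dfm v p (p + m) (p + m + 1) z) (p + m) ρ = 0}.Finite) :
    Matrix.det (Matrix.of fun c j : Fin m => gam v (L j) (p + c)) ≠ 0 := by
  classical
  intro hdet
  obtain ⟨ζ, hζ0, hζ⟩ := Matrix.exists_vecMul_eq_zero_iff.mpr hdet
  obtain ⟨j₀, hj₀⟩ := Function.ne_iff.mp hζ0
  have h1 : ∀ τ : ℂ, (zB (τ • ζ) : Fin (p + m - p) × Fin (p + m + 1 - (p + m)) → ℂ) ∈
      {z | ∀ j, ∑ ρ, L j ρ * mn (dfm v p (p + m) (p + m + 1) z) (p + m) ρ = 0} := by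
    intro τ j
    rw [form_dfmB hv hq, gam_last, h0]
    have h2 := congrFun hζ j
    rw [Matrix.vecMul, dotProduct, Pi.zero_apply] at h2
    simp only [Pi.smul_apply, smul_eq_mul, mul_assoc]
    rw [← Finset.mul_sum]
    have h3 : ∑ i : Fin m, ζ i * gam v (L j) (p + i) = 0 := by
      rw [← h2]
      exact Finset.sum_congr rfl fun i _ => by rw [Matrix.of_apply]
    rw [h3, mul_zero, sub_zero]
  refine Set.infinite_of_injective_forall_mem (f := fun τ : ℂ =>
    (zB (τ • ζ) : Fin (p + m - p) × Fin (p + m + 1 - (p + m)) → ℂ)) ?_ h1 hfin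
  intro τ τ' h
  have h2 := congrFun (zB_inj h) j₀
  simp only [Pi.smul_apply, smul_eq_mul] at h2
  exact mul_right_cancel₀ hj₀ h2

/-- the coefficients after a transposition of two vectors of the frame -/
lemma gam_swap {b : ℕ} (hv : IsFrame v) (hb : b + 1 ≤ N) {c d : ℕ} (hc : c < b + 1)
    (hd : d < b + 1) {ε : ℂ}
    (h : ∀ ρ, mn (fun s => v (Equiv.swap c d s)) (b + 1) ρ = ε * mn v (b + 1) ρ)
    (L : (Fin b → Fin N) → ℂ) {e : ℕ} (he : e < b + 1) :
    gam (fun s => v (Equiv.swap c d s)) L e = ε * gam v L (Equiv.swap c d e) := by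
  classical
  obtain ⟨g, hg⟩ := exists_dual hv
  have hsw : ∀ x, x < b + 1 → Equiv.swap c d x < b + 1 := by
    intro x hx
    rw [Equiv.swap_apply_def]
    split_ifs <;> assumption
  have hg' : ∀ (x y : ℕ) (hx : x < N) (_ : y < N), ∑ i, g ⟨x, hx⟩ i * v y i =
      if x = y then 1 else 0 := by
    intro x y hx hy
    have := hg ⟨x, hx⟩ ⟨y, hy⟩
    rw [this]
    simp
  set w : ℕ → Fin N → ℂ := fun s => v (Equiv.swap c d s) with hw
  set u : Fin N → ℂ := ctr (fun ρ => mn v (b + 1) ρ) L with hu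
  have h1 : ∀ i, u i = ∑ x : Fin (b + 1), gam v L x * v x i := by
    intro i
    rw [hu, ctr_eq (v := v) (C := 1) (fun ρ => (one_mul _).symm), one_mul]
  have h2 : ∀ i, ε * u i = ∑ x : Fin (b + 1), gam w L x * w x i := by
    intro i
    have h3 : ctr (fun ρ => ε * mn v (b + 1) ρ) L i = ε * u i := by
      rw [hu]
      unfold ctr
      rw [Finset.mul_sum]
      exact Finset.sum_congr rfl fun ρ _ => by ring
    rw [← h3, ctr_eq (v := w) (C := 1) (fun ρ => by rw [one_mul, h]), one_mul]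
  set e' := Equiv.swap c d e with he'
  have he'' : e' < b + 1 := hsw e he
  have h3 : ∑ i, g ⟨e', by omega⟩ i * u i = gam v L e' := by
    have h3 : ∀ i, g ⟨e', by omega⟩ i * u i =
        ∑ x : Fin (b + 1), gam v L x * (g ⟨e', by omega⟩ i * v x i) := by
      intro i
      rw [h1, Finset.mul_sum]
      exact Finset.sum_congr rfl fun x _ => by ring
    rw [Finset.sum_congr rfl fun i _ => h3 i, Finset.sum_comm]
    have h4 : ∀ x : Fin (b + 1), ∑ i, gam v L x * (g ⟨e', by omega⟩ i * v x i) =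
        if e' = x.1 then gam v L x else 0 := by
      intro x
      rw [← Finset.mul_sum, hg' e' x.1 (by omega) (by omega)]
      split_ifs <;> simp
    rw [Finset.sum_congr rfl fun x _ => h4 x, Finset.sum_eq_single ⟨e', he''⟩]
    · rw [if_pos rfl]
    · intro x _ hx
      rw [if_neg]
      intro h
      exact hx (Fin.ext h.symm)
    · intro h
      exact absurd (Finset.mem_univ _) h
  have h5 : ∑ i, g ⟨e', by omega⟩ i * (ε * u i) = gam w L e := by
    have h3 : ∀ i, g ⟨e', by omega⟩ i * (ε * u i) =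
        ∑ x : Fin (b + 1), gam w L x * (g ⟨e', by omega⟩ i * w x i) := by
      intro i
      rw [h2, Finset.mul_sum]
      exact Finset.sum_congr rfl fun x _ => by ring
    rw [Finset.sum_congr rfl fun i _ => h3 i, Finset.sum_comm]
    have h4 : ∀ x : Fin (b + 1), ∑ i, gam w L x * (g ⟨e', by omega⟩ i * w x i) =
        if e = x.1 then gam w L x else 0 := by
      intro x
      rw [← Finset.mul_sum, hw]
      simp only
      rw [hg' e' _ (by omega) (by have := hsw x.1 x.2; omega), he']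
      simp only [(Equiv.swap c d).injective.eq_iff]
      split_ifs <;> simp
    rw [Finset.sum_congr rfl fun x _ => h4 x, Finset.sum_eq_single ⟨e, he⟩]
    · rw [if_pos rfl]
    · intro x _ hx
      rw [if_neg]
      intro h
      exact hx (Fin.ext h.symm)
    · intro h
      exact absurd (Finset.mem_univ _) h
  rw [← h5, ← h3, Finset.mul_sum]
  exact Finset.sum_congr rfl fun i _ => by ring

/-- There is a solution in every fibre. -/
theorem existsB (hv : IsFrame v) (hq : p + m + 1 ≤ N) (L : Fin m → (Fin (p + m) → Fin N) → ℂ) :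
    ∃ v', Adj p (p + m + 1) v v' ∧ ∀ j, ∑ ρ, L j ρ * mn v' (p + m) ρ = 0 := by
  classical
  obtain ⟨φ, hφ0, hφ⟩ : ∃ φ : Fin (m + 1) → ℂ, φ ≠ 0 ∧
      ∀ j : Fin m, ∑ c : Fin (m + 1), φ c * gam v (L j) (p + c) = 0 := by
    have hdet : Matrix.det (Matrix.of fun (r c : Fin (m + 1)) =>
        if h : r.1 < m then gam v (L ⟨r.1, h⟩) (p + c) else 0) = 0 :=
      Matrix.det_eq_zero_of_row_eq_zero (Fin.last m) (fun c => by
        rw [Matrix.of_apply, dif_neg (by simp)])
    obtain ⟨w, hw0, hw⟩ := Matrix.exists_mulVec_eq_zero_iff.mpr hdet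
    refine ⟨w, hw0, fun j => ?_⟩
    have h2 := congrFun hw j.castSucc
    rw [Matrix.mulVec, dotProduct, Pi.zero_apply] at h2
    rw [← h2]
    refine Finset.sum_congr rfl fun c _ => ?_
    rw [Matrix.of_apply, dif_pos (by simp), mul_comm]
    rfl
  obtain ⟨c₀, hc₀⟩ := Function.ne_iff.mp hφ0
  have hc₀' : φ c₀ ≠ 0 := hc₀
  have hA1 := adj_swap (p := p) (q := p + m + 1) (c := p + c₀.1) (d := p + m) hv hq (by omega)
    (by omega) (by omega) (by omega)
  obtain ⟨ε, hε, hεh⟩ := hA1.high
  set v₁ : ℕ → Fin N → ℂ := fun s => v (Equiv.swap (p + c₀.1) (p + m) s) with hv₁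
  set σ : Fin m → Fin (m + 1) := fun c => Equiv.swap c₀ (Fin.last m) c.castSucc with hσ
  have hsw : ∀ x : Fin (m + 1), Equiv.swap (p + c₀.1) (p + m) (p + x.1) =
      p + (Equiv.swap c₀ (Fin.last m) x).1 := by
    intro x
    rw [Equiv.swap_apply_def, Equiv.swap_apply_def]
    by_cases h1 : x = c₀
    · rw [if_pos (by rw [h1]), if_pos h1, Fin.val_last]
    · rw [if_neg (by rw [Fin.ext_iff] at h1; omega), if_neg h1]
      by_cases h2 : x = Fin.last m
      · rw [if_pos (by rw [h2, Fin.val_last]), if_pos h2]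
      · rw [if_neg (by rw [Fin.ext_iff, Fin.val_last] at h2; omega), if_neg h2]
  have hgam : ∀ (j : Fin m) (x : Fin (m + 1)), gam v₁ (L j) (p + x.1) =
      ε * gam v (L j) (p + (Equiv.swap c₀ (Fin.last m) x).1) := by
    intro j x
    rw [← hsw]
    exact gam_swap hv hq (by omega) (by omega) (hεh _ le_rfl) (L j) (by omega)
  refine ⟨dfm v₁ p (p + m) (p + m + 1) (zB (fun c => -(φ (σ c) / φ c₀))),
    hA1.trans (adj_dfm hA1.frame hq _), fun j => ?_⟩
  rw [form_dfmB hA1.frame hq]
  have h1 := hgam j (Fin.last m)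
  rw [Equiv.swap_apply_right, Fin.val_last] at h1
  have h2 : ∀ c : Fin m, gam v₁ (L j) (p + c.1) = ε * gam v (L j) (p + (σ c).1) := fun c => by
    have := hgam j c.castSucc
    rwa [Fin.val_castSucc] at this
  have h3 : ∑ c : Fin (m + 1), φ c * gam v (L j) (p + c) =
      ∑ c : Fin m, φ (σ c) * gam v (L j) (p + (σ c).1) + φ c₀ * gam v (L j) (p + c₀.1) := by
    rw [← Equiv.sum_comp (Equiv.swap c₀ (Fin.last m)), Fin.sum_univ_castSucc,
      Equiv.swap_apply_right]
  rw [hφ j] at h3
  rw [h1, Finset.sum_congr rfl fun c _ => by rw [h2 c]]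
  have h4 : ∑ x : Fin m, -(φ (σ x) / φ c₀) * (ε * gam v (L j) (p + (σ x).1)) =
      -(ε / φ c₀) * ∑ c : Fin m, φ (σ c) * gam v (L j) (p + (σ c).1) := by
    rw [Finset.mul_sum]
    exact Finset.sum_congr rfl fun c _ => by ring
  rw [h4]
  have h5 : ∑ c : Fin m, φ (σ c) * gam v (L j) (p + (σ c).1) =
      - (φ c₀ * gam v (L j) (p + c₀.1)) := by linear_combination -h3
  rw [h5]
  field_simp
  ring

end Pool.Agent.H40.Flag
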