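import Pool.Agent.H40.Flag.Formula
import Pool.Agent.H40.Flag.Blk

/-!
# Flags and their coordinates; finiteness of the local solutions
-/

set_option autoImplicit false

namespace Pool.Agent.H40.Flag

open MvPolynomial Pool.Agent.H22.Sub

variable {T I : Type} {n : T → ℕ} {t : I → T} {k : I → ℕ}

/-- `x` has the coordinates of the flags given by the frames `v`, with factors `c`, for the steps
in `A`; its other coordinates are zero. -/
structure IsFlag (A : Finset I) (v : ∀ τ, ℕ → Fin (n τ) → ℂ) (c : I → ℂ)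
    (x : Crd n t k → ℂ) : Prop where
  frame : ∀ τ, IsFrame (v τ)
  ne : ∀ i ∈ A, c i ≠ 0
  eq : ∀ i ∈ A, ∀ ρ, x ⟨i, ρ⟩ = c i * mn (v (t i)) (k i) ρ
  out : ∀ i, i ∉ A → ∀ ρ, x ⟨i, ρ⟩ = 0

/-- the points with steps in `A` at which the `F j` vanish -/
def LocF (A : Finset I) {J : Type} (F : J → MvPolynomial (Crd n t k) ℂ) : Set (Crd n t k → ℂ) :=
  {x | (∃ v c, IsFlag A v c x) ∧ ∀ j, eval x (F j) = 0}

lemma mn_ne {N : ℕ} {v : ℕ → Fin N → ℂ} (hv : IsFrame v) {κ : ℕ} (hκ : κ ≤ N) :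
    ∃ ρ : Fin κ → Fin N, mn v κ ρ ≠ 0 := by
  classical
  by_contra hcon
  push Not at hcon
  obtain ⟨g, hg⟩ := exists_dual hv
  have h1 := sum_mn (m := κ) (fun r => g (Fin.castLE hκ r)) v
  rw [Finset.sum_eq_zero (fun σ _ => by rw [hcon, mul_zero])] at h1
  have h2 : (Matrix.of fun r s : Fin κ => ∑ i, g (Fin.castLE hκ r) i * v s i) = 1 := by
    funext r s
    rw [Matrix.of_apply, Matrix.one_apply]
    have := hg (Fin.castLE hκ r) (Fin.castLE hκ s)
    rw [Fin.val_castLE] at this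
    rw [this]
    simp only [Fin.ext_iff, Fin.val_castLE]
  rw [h2, Matrix.det_one] at h1
  exact one_ne_zero h1.symm

lemma IsFlag.ne_zero {A : Finset I} {v : ∀ τ, ℕ → Fin (n τ) → ℂ} {c : I → ℂ}
    {x : Crd n t k → ℂ} (h : IsFlag A v c x) {i : I} (hi : i ∈ A) (hk : k i ≤ n (t i)) :
    ∃ s : Crd n t k, s.1 = i ∧ x s ≠ 0 := by
  obtain ⟨ρ, hρ⟩ := mn_ne (h.frame (t i)) hk
  exact ⟨⟨i, ρ⟩, rfl, by rw [h.eq i hi]; exact mul_ne_zero (h.ne i hi) hρ⟩

lemma mn_update_frame [DecidableEq T] (v : ∀ τ, ℕ → Fin (n τ) → ℂ) {t₀ τ : T} (h : τ = t₀)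
    (v' : ℕ → Fin (n t₀) → ℂ) {κ : ℕ} {C : ℂ}
    (hC : ∀ ρ : Fin κ → Fin (n t₀), mn v' κ ρ = C * mn (v t₀) κ ρ) (ρ : Fin κ → Fin (n τ)) :
    mn (Function.update v t₀ v' τ) κ ρ = C * mn (v τ) κ ρ := by
  subst h
  rw [Function.update_self]
  exact hC ρ

/-- `p` is the step before `b` and `q` is the step after `b` among the steps in `A` of the
flags in the space `τ`. -/
structure Nbr (A : Finset I) (n : T → ℕ) (t : I → T) (k : I → ℕ) (τ : T) (b p q : ℕ) : Prop where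
  low : IsGreatest {x | x = 0 ∨ ∃ i ∈ A, t i = τ ∧ k i = x ∧ x < b} p
  high : IsLeast {x | x = n τ ∨ ∃ i ∈ A, t i = τ ∧ k i = x ∧ b < x} q

/-- Replacing the vectors between the two neighbours and the coordinates of the step `i₀`. -/
lemma IsFlag.replace [DecidableEq I] [DecidableEq T] {A : Finset I}
    (hinj : ∀ i j, t i = t j → k i = k j → i = j)
    {v : ∀ τ, ℕ → Fin (n τ) → ℂ} {c : I → ℂ} {x : Crd n t k → ℂ} {i₀ : I} {p q : ℕ}
    (h : IsFlag (A.erase i₀) v c (gl i₀ x 0)) (hN : Nbr A n t k (t i₀) (k i₀) p q)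
    {v' : ℕ → Fin (n (t i₀)) → ℂ} (hv' : Adj p q (v (t i₀)) v') {l : ℂ} (hl : l ≠ 0)
    (hi₀ : i₀ ∈ A) :
    ∃ c', IsFlag A (Function.update v (t i₀) v') c' (gl i₀ x (fun ρ => l * mn v' (k i₀) ρ)) := by
  obtain ⟨ε, hε, hε'⟩ := hv'.high
  refine ⟨fun i => if i = i₀ then l else if t i = t i₀ ∧ q ≤ k i then c i / ε else c i, ?_, ?_,
    ?_, ?_⟩
  · intro τ
    by_cases hτ : τ = t i₀
    · subst hτ
      rw [Function.update_self]
      exact hv'.frame
    · rw [Function.update_of_ne hτ]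
      exact h.frame τ
  · intro i hi
    beta_reduce
    split_ifs with h1 h2
    · exact hl
    · exact div_ne_zero (h.ne i (Finset.mem_erase.mpr ⟨h1, hi⟩)) hε
    · exact h.ne i (Finset.mem_erase.mpr ⟨h1, hi⟩)
  · intro i hi ρ
    beta_reduce
    by_cases h1 : i = i₀
    · subst h1
      rw [gl_same, if_pos rfl, Function.update_self]
    · rw [gl_ne _ _ h1, if_neg h1]
      have h2 := h.eq i (Finset.mem_erase.mpr ⟨h1, hi⟩) ρ
      rw [gl_ne _ _ h1] at h2
      rw [h2]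
      by_cases h3 : t i = t i₀
      · rcases Nat.lt_trichotomy (k i) (k i₀) with h4 | h4 | h4
        · have h5 : k i ≤ p := hN.low.2 (Or.inr ⟨i, hi, h3, rfl, h4⟩)
          have h6 : p < k i₀ ∨ p = 0 := by
            rcases hN.low.1 with h | ⟨_, _, _, _, h⟩
            · exact Or.inr h
            · exact Or.inl h
          have h7 : k i₀ < q ∨ q = n (t i₀) := by
            rcases hN.high.1 with h | ⟨_, _, _, _, h⟩
            · exact Or.inr h
            · exact Or.inl h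
          by_cases h8 : q ≤ k i
          · rw [if_pos ⟨h3, h8⟩, mn_update_frame v h3 v' (C := ε) (hε' (k i) h8)]
            field_simp
          · rw [if_neg (fun h => h8 h.2), mn_update_frame v h3 v' (C := 1)
              (fun ρ => by rw [hv'.low _ h5, one_mul]), one_mul]
        · exact absurd (hinj i i₀ h3 h4) h1
        · have h5 : q ≤ k i := hN.high.2 (Or.inr ⟨i, hi, h3, rfl, h4⟩)
          rw [if_pos ⟨h3, h5⟩, mn_update_frame v h3 v' (C := ε) (hε' (k i) h5)]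
          field_simp
      · rw [if_neg (fun h => h3 h.1), Function.update_of_ne h3]
  · intro i hi ρ
    have h1 : i ≠ i₀ := by
      rintro rfl
      exact hi hi₀
    have h2 := h.out i (fun h => hi (Finset.mem_of_mem_erase h)) ρ
    rw [gl_ne _ _ h1] at h2
    rw [gl_ne _ _ h1, h2]

lemma IsFlag.erase [DecidableEq I] {A : Finset I} {v : ∀ τ, ℕ → Fin (n τ) → ℂ} {c : I → ℂ}
    {x : Crd n t k → ℂ} (h : IsFlag A v c x) (i₀ : I) : IsFlag (A.erase i₀) v c (gl i₀ x 0) := by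
  refine ⟨h.frame, fun i hi => h.ne i (Finset.mem_of_mem_erase hi), fun i hi ρ => ?_,
    fun i hi ρ => ?_⟩
  · rw [gl_ne _ _ (Finset.ne_of_mem_erase hi)]
    exact h.eq i (Finset.mem_of_mem_erase hi) ρ
  · by_cases h1 : i = i₀
    · subst h1
      rw [gl_same]
      rfl
    · rw [gl_ne _ _ h1]
      exact h.out i (fun h2 => hi (Finset.mem_erase.mpr ⟨h1, h2⟩)) ρ

/-! ### finiteness -/

/-- The deformations of a point of `LocF A F` with finite fibre in which the equations hold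
are finite in number. -/
theorem finite_dfm [DecidableEq I] [DecidableEq T] {A : Finset I}
    (hinj : ∀ i j, t i = t j → k i = k j → i = j) {J : Type}
    {F : J → MvPolynomial (Crd n t k) ℂ} {v : ∀ τ, ℕ → Fin (n τ) → ℂ} {c : I → ℂ}
    {x : Crd n t k → ℂ} (hx : IsFlag A v c x) {i₀ : I} (hi₀ : i₀ ∈ A) {p q : ℕ}
    (hN : Nbr A n t k (t i₀) (k i₀) p q) (hbq : k i₀ ≤ q) (hq : q ≤ n (t i₀))
    (hfin : FinPts Sigma.fst (fib Sigma.fst (LocF A F) i₀ x)) :
    {ζ | ∀ j, eval (gl i₀ x (fun ρ => c i₀ * mn (dfm (v (t i₀)) p (k i₀) q ζ) (k i₀) ρ))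
      (F j) = 0}.Finite := by
  classical
  obtain ⟨E, hE, h⟩ := hfin
  by_contra hinf
  set y : (Fin (k i₀ - p) × Fin (q - k i₀) → ℂ) → Crd n t k → ℂ := fun ζ =>
    gl i₀ x (fun ρ => c i₀ * mn (dfm (v (t i₀)) p (k i₀) q ζ) (k i₀) ρ) with hy
  have h1 : ∀ ζ ∈ {ζ | ∀ j, eval (y ζ) (F j) = 0}, ∃ z ∈ E, SamePoint Sigma.fst z (y ζ) := by
    intro ζ hζ
    refine h _ ⟨⟨?_, hζ⟩, fun s s' hss hs => ?_⟩
    · obtain ⟨c', hc'⟩ := IsFlag.replace hinj (hx.erase i₀) hN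
        (adj_dfm (p := p) (b := k i₀) (q := q) (hx.frame (t i₀)) hq ζ) (hx.ne i₀ hi₀) hi₀
      exact ⟨_, c', hc'⟩
    · obtain ⟨i, ρ⟩ := s
      obtain ⟨i', ρ'⟩ := s'
      change i = i' at hss
      change i ≠ i₀ at hs
      subst hss
      rw [hy]
      simp only
      rw [gl_ne _ _ hs, gl_ne _ _ hs, mul_comm]
  choose! f hf using h1
  obtain ⟨ζ, hζ, ζ', hζ', hne, heq⟩ := Set.Infinite.exists_ne_map_eq_of_mapsTo
    (s := {ζ | ∀ j, eval (y ζ) (F j) = 0}) hinf (fun ζ hζ => (hf ζ hζ).1) hE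
  have h2 := (hf ζ hζ).2
  have h3 := (hf ζ' hζ').2
  rw [← heq] at h3
  obtain ⟨c', hc', h4⟩ := h2.symm.trans h3
  apply hne
  symm
  refine dfm_inj (hx.frame (t i₀)) hbq hq (c := c' i₀) fun ρ => ?_
  have h5 := h4 ⟨i₀, ρ⟩
  rw [hy] at h5
  simp only at h5
  rw [gl_same, gl_same] at h5
  have h6 := hx.ne i₀ hi₀
  apply mul_left_cancel₀ h6
  rw [h5]
  ring

/-- polynomials in the deformation parameters -/
lemma exists_dfm_poly {N : ℕ} (v : ℕ → Fin N → ℂ) (p b q : ℕ) (ρ : Fin b → Fin N) :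
    ∃ G : MvPolynomial (Fin (b - p) × Fin (q - b)) ℂ, ∀ ζ, eval ζ G = mn (dfm v p b q ζ) b ρ := by
  classical
  refine ⟨Matrix.det (Matrix.of fun r s : Fin b => if h : p ≤ s.1 ∧ s.1 < b then
    MvPolynomial.C (v s (ρ r)) + ∑ d : Fin (q - b), MvPolynomial.X (⟨s - p, by omega⟩, d) *
      MvPolynomial.C (v (b + d) (ρ r)) else MvPolynomial.C (v s (ρ r))), fun ζ => ?_⟩
  unfold mn
  rw [RingHom.map_det]
  congr 1
  funext r s
  rw [RingHom.mapMatrix_apply, Matrix.map_apply, Matrix.of_apply, Matrix.of_apply]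
  unfold dfm
  split_ifs with h
  · simp
  · simp

end Pool.Agent.H40.Flag
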