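import Pool.Agent.H40.Flag.CaseB
import Pool.Agent.H22.Sub.Sections

/-!
# The elimination formulas as polynomials
-/

set_option autoImplicit false

namespace Pool.Agent.H40.Flag

open MvPolynomial Pool.Agent.H22.Sub

section Map

variable {N p m : ℕ} {R R' : Type} [CommRing R] [CommRing R'] (f : R →+* R')

lemma map_lpA (P : (Fin p → Fin N) → R) (L : Fin m → (Fin (p + 1) → Fin N) → R) (j : Fin m)
    (s : Fin N) : f (lpA P L j s) = lpA (fun ρ => f (P ρ)) (fun j ρ => f (L j ρ)) j s := by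
  unfold lpA
  rw [map_sum]
  refine Finset.sum_congr rfl fun ρ _ => ?_
  rw [map_mul, map_sum]
  congr 1
  refine Finset.sum_congr rfl fun r _ => ?_
  rw [map_mul, map_pow, map_neg, map_one]
  split_ifs <;> simp

lemma map_yA (P : (Fin p → Fin N) → R) (Q : (Fin (p + 1 + m) → Fin N) → R)
    (L : Fin m → (Fin (p + 1) → Fin N) → R) (ρ : Fin (p + 1) → Fin N) :
    f (yA P Q L ρ) = yA (fun ρ => f (P ρ)) (fun ρ => f (Q ρ)) (fun j ρ => f (L j ρ)) ρ := by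
  unfold yA
  rw [map_sum]
  refine Finset.sum_congr rfl fun σ _ => ?_
  rw [map_mul, map_prod]
  congr 1
  exact Finset.prod_congr rfl fun j _ => map_lpA f P L j (σ j)

lemma map_wdg (P : (Fin p → Fin N) → R) (u : ℕ → Fin N → R) (m : ℕ) (ρ : Fin (p + m) → Fin N) :
    f (wdg P u m ρ) = wdg (fun ρ => f (P ρ)) (fun j s => f (u j s)) m ρ := by
  induction m with
  | zero => rfl
  | succ m ih =>
    change f (∑ r : Fin (p + m + 1), (-1) ^ (r.1 + (p + m)) * u m (ρ r) *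
      wdg P u m (fun r' => ρ (r.succAbove r'))) = ∑ r : Fin (p + m + 1), (-1) ^ (r.1 + (p + m)) *
        f (u m (ρ r)) * wdg _ _ m (fun r' => ρ (r.succAbove r'))
    rw [map_sum]
    refine Finset.sum_congr rfl fun r _ => ?_
    rw [map_mul, map_mul, map_pow, map_neg, map_one, ih]

lemma map_ctr {b : ℕ} (Q : (Fin (b + 1) → Fin N) → R) (L : (Fin b → Fin N) → R) (s : Fin N) :
    f (ctr Q L s) = ctr (fun ρ => f (Q ρ)) (fun ρ => f (L ρ)) s := by
  unfold ctr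
  rw [map_sum]
  exact Finset.sum_congr rfl fun ρ _ => map_mul f _ _

lemma map_yB (P : (Fin p → Fin N) → R) (Q : (Fin (p + m + 1) → Fin N) → R)
    (L : Fin m → (Fin (p + m) → Fin N) → R) (ρ : Fin (p + m) → Fin N) :
    f (yB P Q L ρ) = yB (fun ρ => f (P ρ)) (fun ρ => f (Q ρ)) (fun j ρ => f (L j ρ)) ρ := by
  unfold yB
  rw [map_wdg]
  congr 1
  funext j s
  split_ifs with h
  · exact map_ctr f _ _ _
  · simp

end Map

section Hom

variable {S I : Type} {π : S → I} {N p m : ℕ}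

lemma hom_neg_one_pow (k : ℕ) : MultiHom π ((-1 : MvPolynomial S ℂ) ^ k) 0 := by
  have h : ((-1 : MvPolynomial S ℂ) ^ k) = MvPolynomial.C ((-1 : ℂ) ^ k) := by
    rw [map_pow, map_neg, map_one]
  rw [h]
  exact isWeightedHomogeneous_C _ _

lemma hom_lpA {P : (Fin p → Fin N) → MvPolynomial S ℂ} {wp : I → ℤ}
    (hP : ∀ ρ, MultiHom π (P ρ) wp) {L : Fin m → (Fin (p + 1) → Fin N) → MvPolynomial S ℂ}
    {δ : Fin m → I → ℤ} (hL : ∀ j ρ, MultiHom π (L j ρ) (δ j)) (j : Fin m) (s : Fin N) :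
    MultiHom π (lpA P L j s) (δ j + wp) := by
  unfold lpA
  refine IsWeightedHomogeneous.sum _ _ _ fun ρ _ => ?_
  refine (hL j ρ).mul (IsWeightedHomogeneous.sum _ _ _ fun r _ => ?_)
  rw [← zero_add wp]
  refine (hom_neg_one_pow _).mul ?_
  split_ifs
  · exact hP _
  · exact isWeightedHomogeneous_zero _ _ _

lemma hom_yA {P : (Fin p → Fin N) → MvPolynomial S ℂ} {wp : I → ℤ}
    (hP : ∀ ρ, MultiHom π (P ρ) wp) {Q : (Fin (p + 1 + m) → Fin N) → MvPolynomial S ℂ}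
    {wq : I → ℤ} (hQ : ∀ ρ, MultiHom π (Q ρ) wq)
    {L : Fin m → (Fin (p + 1) → Fin N) → MvPolynomial S ℂ}
    {δ : Fin m → I → ℤ} (hL : ∀ j ρ, MultiHom π (L j ρ) (δ j)) (ρ : Fin (p + 1) → Fin N) :
    MultiHom π (yA P Q L ρ) (∑ j, (δ j + wp) + wq) := by
  unfold yA
  refine IsWeightedHomogeneous.sum _ _ _ fun σ _ => ?_
  exact MultiHom.mul (IsWeightedHomogeneous.prod _ _ _ fun j _ => hom_lpA hP hL j (σ j)) (hQ _)

lemma hom_wdg {P : (Fin p → Fin N) → MvPolynomial S ℂ} {wp : I → ℤ}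
    (hP : ∀ ρ, MultiHom π (P ρ) wp) {u : ℕ → Fin N → MvPolynomial S ℂ} {δ : ℕ → I → ℤ}
    (m : ℕ) (hu : ∀ j, j < m → ∀ s, MultiHom π (u j s) (δ j)) (ρ : Fin (p + m) → Fin N) :
    MultiHom π (wdg P u m ρ) (∑ j ∈ Finset.range m, δ j + wp) := by
  induction m with
  | zero =>
    rw [Finset.sum_range_zero, zero_add]
    exact hP ρ
  | succ m ih =>
    change MultiHom π (∑ r : Fin (p + m + 1), (-1) ^ (r.1 + (p + m)) * u m (ρ r) *
      wdg P u m (fun r' => ρ (r.succAbove r'))) _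
    refine IsWeightedHomogeneous.sum _ _ _ fun r _ => ?_
    rw [Finset.sum_range_succ]
    have h1 := ((hom_neg_one_pow (π := π) (r.1 + (p + m))).mul (hu m (by omega) (ρ r))).mul
      (ih (fun j hj => hu j (by omega)) (fun r' => ρ (r.succAbove r')))
    have e : 0 + δ m + (∑ j ∈ Finset.range m, δ j + wp) =
        ∑ j ∈ Finset.range m, δ j + δ m + wp := by abel
    rw [e] at h1
    exact h1

lemma hom_ctr {b : ℕ} {Q : (Fin (b + 1) → Fin N) → MvPolynomial S ℂ} {wq : I → ℤ}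
    (hQ : ∀ ρ, MultiHom π (Q ρ) wq) {L : (Fin b → Fin N) → MvPolynomial S ℂ} {δ : I → ℤ}
    (hL : ∀ ρ, MultiHom π (L ρ) δ) (s : Fin N) : MultiHom π (ctr Q L s) (δ + wq) := by
  unfold ctr
  exact IsWeightedHomogeneous.sum _ _ _ fun ρ _ => (hL ρ).mul (hQ _)

lemma hom_yB {P : (Fin p → Fin N) → MvPolynomial S ℂ} {wp : I → ℤ}
    (hP : ∀ ρ, MultiHom π (P ρ) wp) {Q : (Fin (p + m + 1) → Fin N) → MvPolynomial S ℂ}
    {wq : I → ℤ} (hQ : ∀ ρ, MultiHom π (Q ρ) wq)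
    {L : Fin m → (Fin (p + m) → Fin N) → MvPolynomial S ℂ}
    {δ : Fin m → I → ℤ} (hL : ∀ j ρ, MultiHom π (L j ρ) (δ j)) (ρ : Fin (p + m) → Fin N) :
    MultiHom π (yB P Q L ρ) (∑ j, (δ j + wq) + wp) := by
  have h1 := hom_wdg (π := π) hP (u := fun j => if h : j < m then ctr Q (L ⟨j, h⟩) else 0)
    (δ := fun j => if h : j < m then δ ⟨j, h⟩ + wq else 0) m (fun j hj s => by
      simp only [dif_pos hj]
      exact hom_ctr hQ (hL ⟨j, hj⟩) s) ρ
  have h2 : ∑ j ∈ Finset.range m, (if h : j < m then δ ⟨j, h⟩ + wq else 0) =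
      ∑ j : Fin m, (δ j + wq) := by
    rw [Finset.sum_range]
    exact Finset.sum_congr rfl fun j _ => by rw [dif_pos j.2]
  rw [h2] at h1
  exact h1

end Hom

/-- The elimination formula. -/
theorem exists_elim {S I : Type} {π : S → I} {N p b q m : ℕ}
    (hcase : (b = p + 1 ∧ q = p + 1 + m) ∨ (b = p + m ∧ q = p + m + 1)) (hq : q ≤ N)
    (P : (Fin p → Fin N) → MvPolynomial S ℂ) (Q : (Fin q → Fin N) → MvPolynomial S ℂ)
    (L : Fin m → (Fin b → Fin N) → MvPolynomial S ℂ) {wp wq : I → ℤ} {δ : Fin m → I → ℤ}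
    (hP : ∀ ρ, MultiHom π (P ρ) wp) (hQ : ∀ ρ, MultiHom π (Q ρ) wq)
    (hL : ∀ j ρ, MultiHom π (L j ρ) (δ j)) :
    ∃ Y : (Fin b → Fin N) → MvPolynomial S ℂ,
      (∀ ρ, MultiHom π (Y ρ) (∑ j, δ j + (q - b) • wp + (b - p) • wq)) ∧
      (∀ z z' : S → ℂ, (∀ ρ, eval z (P ρ) = eval z' (P ρ)) →
        (∀ ρ, eval z (Q ρ) = eval z' (Q ρ)) → (∀ j ρ, eval z (L j ρ) = eval z' (L j ρ)) →
          ∀ ρ, eval z (Y ρ) = eval z' (Y ρ)) ∧
      (∀ (z : S → ℂ) (v : ℕ → Fin N → ℂ) (C C' : ℂ), IsFrame v → C ≠ 0 → C' ≠ 0 →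
        (∀ ρ, eval z (P ρ) = C * mn v p ρ) → (∀ ρ, eval z (Q ρ) = C' * mn v q ρ) →
        (∀ j, ∑ ρ, eval z (L j ρ) * mn v b ρ = 0) →
        {ζ | ∀ j, ∑ ρ, eval z (L j ρ) * mn (dfm v p b q ζ) b ρ = 0}.Finite →
          ∃ l : ℂ, l ≠ 0 ∧ ∀ ρ, eval z (Y ρ) = l * mn v b ρ) := by
  rcases hcase with ⟨rfl, rfl⟩ | ⟨rfl, rfl⟩
  · refine ⟨yA P Q L, fun ρ => ?_, fun z z' h1 h2 h3 ρ => ?_, ?_⟩
    · have h := hom_yA hP hQ hL ρ
      have e : ∑ j, (δ j + wp) + wq =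
          ∑ j, δ j + (p + 1 + m - (p + 1)) • wp + (p + 1 - p) • wq := by
        rw [Finset.sum_add_distrib, Finset.sum_const, Finset.card_univ, Fintype.card_fin,
          Nat.add_sub_cancel_left, Nat.add_sub_cancel_left, one_smul]
      rwa [e] at h
    · rw [map_yA, map_yA]
      simp only [h1, h2, h3]
    · intro z v C C' hv hC hC' hPz hQz h0 hfin
      refine ⟨_, mul_ne_zero hC' (mul_ne_zero (pow_ne_zero m hC) (detA_ne
        (fun j ρ => eval z (L j ρ)) h0 hfin)), fun ρ => ?_⟩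
      rw [map_yA]
      exact yA_eq hPz hQz (fun j ρ => eval z (L j ρ)) h0 ρ
  · refine ⟨yB P Q L, fun ρ => ?_, fun z z' h1 h2 h3 ρ => ?_, ?_⟩
    · have h := hom_yB hP hQ hL ρ
      have e : ∑ j, (δ j + wq) + wp =
          ∑ j, δ j + (p + m + 1 - (p + m)) • wp + (p + m - p) • wq := by
        rw [Finset.sum_add_distrib, Finset.sum_const, Finset.card_univ, Fintype.card_fin,
          Nat.add_sub_cancel_left, Nat.add_sub_cancel_left, one_smul]
        abel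
      rwa [e] at h
    · rw [map_yB, map_yB]
      simp only [h1, h2, h3]
    · intro z v C C' hv hC hC' hPz hQz h0 hfin
      refine ⟨_, mul_ne_zero hC (mul_ne_zero (pow_ne_zero m hC') (detB_ne hv hq
        (fun j ρ => eval z (L j ρ)) h0 hfin)), fun ρ => ?_⟩
      rw [map_yB]
      exact yB_eq hPz hQz (fun j ρ => eval z (L j ρ)) h0 ρ

/-- Existence of a solution in every fibre. -/
theorem exists_solution {N p b q m : ℕ} {v : ℕ → Fin N → ℂ}
    (hcase : (b = p + 1 ∧ q = p + 1 + m) ∨ (b = p + m ∧ q = p + m + 1)) (hv : IsFrame v)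
    (hq : q ≤ N) (L : Fin m → (Fin b → Fin N) → ℂ) :
    ∃ v', Adj p q v v' ∧ ∀ j, ∑ ρ, L j ρ * mn v' b ρ = 0 := by
  rcases hcase with ⟨rfl, rfl⟩ | ⟨rfl, rfl⟩
  · exact existsA hv hq L
  · exact existsB hv hq L

end Pool.Agent.H40.Flag
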