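import Mathlib

/-!
# Varieties of isotropic flags: definitions
-/

set_option autoImplicit false

namespace Pool.Agent.H40.Flag

/-- The minor with rows `ρ` of the matrix whose columns are the first `k` vectors of `v`. -/
noncomputable def mn {N : ℕ} (v : ℕ → Fin N → ℂ) (k : ℕ) (ρ : Fin k → Fin N) : ℂ :=
  Matrix.det (Matrix.of fun r s : Fin k => v s (ρ r))

/-- `v 0, …, v (N-1)` is a basis of `ℂ ^ N` -/
def IsFrame {N : ℕ} (v : ℕ → Fin N → ℂ) : Prop := mn v N id ≠ 0

/-- The homogeneous coordinates: for every step `i`, of dimension `k i` in the space `t i` of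
dimension `n (t i)`, the tuples of `k i` indices. -/
abbrev Crd {T I : Type} (n : T → ℕ) (t : I → T) (k : I → ℕ) : Type :=
  Σ i : I, (Fin (k i) → Fin (n (t i)))

end Pool.Agent.H40.Flag

namespace Pool.Agent.H40.Cls

open Matrix Pool.Agent.H40.Flag

/-- The kinds of the spaces: no form, symplectic, orthogonal. -/
inductive Kind
  | gl
  | sp
  | so

/-- `B` is the matrix of a form of the given kind. -/
def IsForm {N : ℕ} : Kind → Matrix (Fin N) (Fin N) ℂ → Prop
  | .gl, B => B = 0
  | .sp, B => Bᵀ = -B ∧ B.det ≠ 0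
  | .so, B => Bᵀ = B ∧ B.det ≠ 0

/-- The number which replaces the dimension of the next step for the last step, of dimension `k`,
in a space of dimension `n`. -/
def endv : Kind → ℕ → ℕ → ℕ
  | .gl, n, _ => n
  | .sp, n, k => n + 1 - k
  | .so, n, k => n - 1 - k

/-- the bilinear form with the matrix `B` -/
def bil {N : ℕ} (B : Matrix (Fin N) (Fin N) ℂ) (v w : Fin N → ℂ) : ℂ := v ⬝ᵥ (B *ᵥ w)

/-- The cone over the product of the varieties of isotropic flags of the spaces `ℂ ^ n τ` with
the bilinear forms `B τ`: there are frames `v τ` of these spaces such that the first `k i` vectors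
of the frame of the space `t i` span an isotropic subspace for every step `i`, and the coordinates
`x ⟨i, ρ⟩` are, up to a factor `c i ≠ 0`, the minors of these vectors. -/
def IsoFlags {T I : Type} (n : T → ℕ) (B : ∀ τ, Matrix (Fin (n τ)) (Fin (n τ)) ℂ) (t : I → T)
    (k : I → ℕ) : Set (Crd n t k → ℂ) :=
  {x | ∃ v : ∀ τ, ℕ → Fin (n τ) → ℂ, (∀ τ, IsFrame (v τ)) ∧
    (∀ i, ∀ s s', s < k i → s' < k i → bil (B (t i)) (v (t i) s) (v (t i) s') = 0) ∧
    ∃ c : I → ℂ, (∀ i, c i ≠ 0) ∧ ∀ i ρ, x ⟨i, ρ⟩ = c i * mn (v (t i)) (k i) ρ}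

end Pool.Agent.H40.Cls
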