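import Pool.Agent.H40.Flag.Model

/-!
# Maximal minors of the first vectors of a frame
-/

set_option autoImplicit false

namespace Pool.Agent.H40.Flag

open Matrix

variable {N : ℕ}

lemma det_row {k : Type} [Fintype k] [DecidableEq k] {R : Type} [CommRing R] (M : Matrix k k R) :
    M.det = ∑ τ : Equiv.Perm k, (Equiv.Perm.sign τ : R) * ∏ r, M r (τ r) := by
  rw [← Matrix.det_transpose, Matrix.det_apply']
  rfl

lemma mn_congr {v v' : ℕ → Fin N → ℂ} {k : ℕ} (h : ∀ s, s < k → v' s = v s) (ρ : Fin k → Fin N) :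
    mn v' k ρ = mn v k ρ := by
  unfold mn
  congr 1
  funext r s
  simp only [Matrix.of_apply]
  rw [h s s.2]

lemma mn_cast {v : ℕ → Fin N → ℂ} {k k' : ℕ} (h : k' = k) (ρ : Fin k → Fin N) :
    mn v k' (fun r => ρ (Fin.cast h r)) = mn v k ρ := by
  subst h
  rfl

/-- some rows are replaced by linear combinations of rows -/
lemma sum_append {a m : ℕ} (ρ : Fin a → Fin N) (g : Fin m → Fin N → ℂ) (v : ℕ → Fin N → ℂ) :
    ∑ σ : Fin m → Fin N, (∏ j, g j (σ j)) * mn v (a + m) (Fin.append ρ σ) =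
      Matrix.det (Matrix.of fun r s : Fin (a + m) =>
        Fin.addCases (motive := fun _ => ℂ) (fun r' => v s (ρ r')) (fun j => ∑ i, g j i * v s i) r) := by
  unfold mn
  simp only [det_row, Matrix.of_apply, Fin.prod_univ_add, Fin.append_left, Fin.append_right,
    Fin.addCases_left, Fin.addCases_right]
  simp only [Finset.mul_sum]
  rw [Finset.sum_comm]
  refine Finset.sum_congr rfl fun τ _ => ?_
  rw [Finset.prod_univ_sum]
  rw [Fintype.piFinset_univ, Finset.mul_sum, Finset.mul_sum]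
  refine Finset.sum_congr rfl fun σ _ => ?_
  rw [Finset.prod_mul_distrib]
  ring

/-- expansion of the rows -/
lemma sum_mn {m : ℕ} (g : Fin m → Fin N → ℂ) (v : ℕ → Fin N → ℂ) :
    ∑ σ : Fin m → Fin N, (∏ j, g j (σ j)) * mn v m σ =
      Matrix.det (Matrix.of fun r s : Fin m => ∑ i, g r i * v s i) := by
  unfold mn
  simp only [det_row, Matrix.of_apply]
  simp only [Finset.mul_sum]
  rw [Finset.sum_comm]
  refine Finset.sum_congr rfl fun τ _ => ?_
  rw [Finset.prod_univ_sum]
  rw [Fintype.piFinset_univ, Finset.mul_sum]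
  refine Finset.sum_congr rfl fun σ _ => ?_
  rw [Finset.prod_mul_distrib]
  ring

/-- the last row is replaced by a linear combination of rows -/
lemma sum_snoc {b : ℕ} (ρ : Fin b → Fin N) (g : Fin N → ℂ) (v : ℕ → Fin N → ℂ) :
    ∑ i : Fin N, g i * mn v (b + 1) (Fin.snoc ρ i) =
      Matrix.det (Matrix.of fun r s : Fin (b + 1) =>
        Fin.lastCases (motive := fun _ => ℂ) (∑ i, g i * v s i) (fun r' => v s (ρ r')) r) := by
  unfold mn
  simp only [det_row, Matrix.of_apply, Fin.prod_univ_castSucc, Fin.snoc_castSucc, Fin.snoc_last,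
    Fin.lastCases_last, Fin.lastCases_castSucc]
  simp only [Finset.mul_sum]
  rw [Finset.sum_comm]
  refine Finset.sum_congr rfl fun τ _ => ?_
  refine Finset.sum_congr rfl fun σ _ => ?_
  ring

/-- combinations of the columns -/
lemma mn_comb {k : ℕ} {v v' : ℕ → Fin N → ℂ} (U : Matrix (Fin k) (Fin k) ℂ)
    (h : ∀ s : Fin k, ∀ i, v' s i = ∑ s' : Fin k, v s' i * U s' s) (ρ : Fin k → Fin N) :
    mn v' k ρ = mn v k ρ * U.det := by
  unfold mn
  rw [← Matrix.det_mul]
  congr 1
  funext r s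
  rw [Matrix.of_apply, Matrix.mul_apply, h]
  rfl

/-- the dual basis -/
lemma exists_dual {v : ℕ → Fin N → ℂ} (hv : IsFrame v) : ∃ g : Fin N → Fin N → ℂ,
    ∀ c d : Fin N, ∑ i, g c i * v d i = if c = d then 1 else 0 := by
  have h1 : IsUnit (Matrix.of fun r s : Fin N => v s r).det := isUnit_iff_ne_zero.mpr hv
  refine ⟨fun c i => (Matrix.of fun r s : Fin N => v s r)⁻¹ c i, fun c d => ?_⟩
  have h2 := Matrix.nonsing_inv_mul _ h1
  have h3 := congrFun (congrFun h2 c) d
  rw [Matrix.mul_apply, Matrix.one_apply] at h3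
  exact h3

/-! ### deformations -/

/-- the vectors `v s`, `p ≤ s < b`, are changed by combinations of the `v s`, `b ≤ s < q`. -/
noncomputable def dfm (v : ℕ → Fin N → ℂ) (p b q : ℕ) (z : Fin (b - p) × Fin (q - b) → ℂ)
    (s : ℕ) : Fin N → ℂ :=
  if h : p ≤ s ∧ s < b then
    fun i => v s i + ∑ d : Fin (q - b), z (⟨s - p, by omega⟩, d) * v (b + d) i
  else v s

variable {v : ℕ → Fin N → ℂ} {p b q : ℕ}

lemma dfm_low (z : Fin (b - p) × Fin (q - b) → ℂ) {k : ℕ} (hk : k ≤ p) (ρ : Fin k → Fin N) :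
    mn (dfm v p b q z) k ρ = mn v k ρ := by
  refine mn_congr (fun s hs => ?_) ρ
  unfold dfm
  rw [dif_neg (by omega)]

lemma dfm_high (z : Fin (b - p) × Fin (q - b) → ℂ) {k : ℕ} (hk : q ≤ k) (ρ : Fin k → Fin N) :
    mn (dfm v p b q z) k ρ = mn v k ρ := by
  classical
  set U : Matrix (Fin k) (Fin k) ℂ := Matrix.of fun s' s =>
    (if s' = s then 1 else 0) + (if h : (p ≤ s.1 ∧ s.1 < b) ∧ (b ≤ s'.1 ∧ s'.1 < q) then
      z (⟨s.1 - p, by omega⟩, ⟨s'.1 - b, by omega⟩) else 0) with hU
  have hdet : U.det = 1 := by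
    rw [Matrix.det_of_isLowerTriangular]
    · refine Finset.prod_eq_one fun s _ => ?_
      rw [hU, Matrix.of_apply, if_pos rfl, dif_neg (by omega), add_zero]
    · intro s' s hs
      have hs' : s' < s := by simpa using hs
      have hs2 : s'.1 < s.1 := hs'
      rw [hU, Matrix.of_apply, if_neg (ne_of_lt hs'), dif_neg (by omega), add_zero]
  rw [mn_comb (v := v) U _ ρ, hdet, mul_one]
  intro s i
  simp only [hU, Matrix.of_apply, mul_add, Finset.sum_add_distrib, mul_ite, mul_one, mul_zero,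
    Finset.sum_ite_eq', Finset.mem_univ, if_true]
  unfold dfm
  by_cases h : p ≤ s.1 ∧ s.1 < b
  · rw [dif_pos h]
    congr 1
    have h2 : ∀ s' : Fin k, v s' i * (if h : (p ≤ s.1 ∧ s.1 < b) ∧ (b ≤ s'.1 ∧ s'.1 < q) then
        z (⟨s.1 - p, by omega⟩, ⟨s'.1 - b, by omega⟩) else 0) =
        if h' : b ≤ s'.1 ∧ s'.1 < q then z (⟨s.1 - p, by omega⟩, ⟨s'.1 - b, by omega⟩) * v s' i
          else 0 := by
      intro s'
      by_cases h' : b ≤ s'.1 ∧ s'.1 < q
      · rw [dif_pos ⟨h, h'⟩, dif_pos h', mul_comm]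
      · rw [dif_neg (fun h3 => h' h3.2), dif_neg h', mul_zero]
    rw [Finset.sum_congr rfl fun s' _ => h2 s']
    refine Finset.sum_of_injOn (fun d : Fin (q - b) => (⟨b + d.1, by omega⟩ : Fin k)) ?_ ?_ ?_ ?_
    · intro d _ d' _ hd
      simp only [Fin.mk.injEq] at hd
      exact Fin.ext (by omega)
    · intro d _
      exact Finset.mem_coe.mpr (Finset.mem_univ _)
    · intro s' _ hs'
      rw [dif_neg]
      rintro ⟨h3, h4⟩
      exact hs' ⟨⟨s'.1 - b, by omega⟩, Finset.mem_coe.mpr (Finset.mem_univ _), Fin.ext (by simp; omega)⟩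
    · intro d _
      rw [dif_pos (by simp only; omega)]
      congr 2
      ext <;> simp
  · rw [dif_neg h]
    rw [Finset.sum_eq_zero, add_zero]
    intro s' _
    rw [dif_neg (fun h3 => h h3.1), mul_zero]

lemma dfm_frame (hv : IsFrame v) (hq : q ≤ N) (z : Fin (b - p) × Fin (q - b) → ℂ) :
    IsFrame (dfm v p b q z) := by
  unfold IsFrame
  rw [dfm_high z hq]
  exact hv

/-- Different deformations give different points. -/
lemma dfm_inj (hv : IsFrame v) (hbq : b ≤ q) (hq : q ≤ N) {z z' : Fin (b - p) × Fin (q - b) → ℂ}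
    {c : ℂ} (h : ∀ ρ, mn (dfm v p b q z') b ρ = c * mn (dfm v p b q z) b ρ) : z' = z := by
  classical
  obtain ⟨g, hg⟩ := exists_dual hv
  have hval : ∀ (z : Fin (b - p) × Fin (q - b) → ℂ) (f : Fin b → Fin N),
      ∑ ρ : Fin b → Fin N, (∏ r, g (f r) (ρ r)) * mn (dfm v p b q z) b ρ =
        Matrix.det (Matrix.of fun r s : Fin b => (if (f r).1 = s.1 then 1 else 0) +
          if h : p ≤ s.1 ∧ b ≤ (f r).1 ∧ (f r).1 < q then
            z (⟨s.1 - p, by omega⟩, ⟨(f r).1 - b, by omega⟩) else 0) := by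
    intro z f
    rw [sum_mn]
    congr 1
    funext r s
    simp only [Matrix.of_apply]
    have hgd : ∀ (c : Fin N) (d : ℕ), d < N → ∑ i, g c i * v d i = if c.1 = d then 1 else 0 := by
      intro c d hd
      have := hg c ⟨d, hd⟩
      rw [this]
      simp [Fin.ext_iff]
    unfold dfm
    by_cases hs : p ≤ s.1
    · rw [dif_pos ⟨hs, s.2⟩]
      simp only [mul_add, Finset.sum_add_distrib]
      rw [hgd _ _ (by omega)]
      congr 1
      simp only [Finset.mul_sum]
      rw [Finset.sum_comm]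
      have h2 : ∀ d : Fin (q - b), ∑ i, g (f r) i * (z (⟨s.1 - p, by omega⟩, d) * v (b + d) i) =
          if (f r).1 = b + d.1 then z (⟨s.1 - p, by omega⟩, d) else 0 := by
        intro d
        have h3 := hgd (f r) (b + d.1) (by omega)
        calc ∑ i, g (f r) i * (z (⟨s.1 - p, by omega⟩, d) * v (b + d) i)
            = z (⟨s.1 - p, by omega⟩, d) * ∑ i, g (f r) i * v (b + d) i := by
              rw [Finset.mul_sum]; exact Finset.sum_congr rfl fun i _ => by ring
          _ = _ := by rw [h3]; split_ifs <;> simp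
      rw [Finset.sum_congr rfl fun d _ => h2 d]
      by_cases h4 : b ≤ (f r).1 ∧ (f r).1 < q
      · rw [dif_pos ⟨hs, h4⟩, Finset.sum_eq_single (⟨(f r).1 - b, by omega⟩ : Fin (q - b))]
        · rw [if_pos (by simp only; omega)]
        · intro d _ hd
          rw [if_neg]
          intro h5
          exact hd (Fin.ext (by simp only; omega))
        · intro h5
          exact absurd (Finset.mem_univ _) h5
      · rw [dif_neg (fun h5 => h4 h5.2)]
        refine Finset.sum_eq_zero fun d _ => ?_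
        rw [if_neg]
        intro h5
        exact h4 ⟨by omega, by omega⟩
    · rw [dif_neg (fun h3 => hs h3.1), hgd _ _ (by omega), dif_neg (fun h3 => hs h3.1), add_zero]
  have hbN : b ≤ N := hbq.trans hq
  have h1 : ∀ z : Fin (b - p) × Fin (q - b) → ℂ,
      ∑ ρ : Fin b → Fin N, (∏ r, g (Fin.castLE hbN r) (ρ r)) * mn (dfm v p b q z) b ρ = 1 := by
    intro z
    rw [hval]
    have : (Matrix.of fun r s : Fin b => (if (Fin.castLE hbN r).1 = s.1 then (1 : ℂ) else 0) +
          if h : p ≤ s.1 ∧ b ≤ (Fin.castLE hbN r).1 ∧ (Fin.castLE hbN r).1 < q then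
            z (⟨s.1 - p, by omega⟩, ⟨(Fin.castLE hbN r).1 - b, by omega⟩) else 0) = 1 := by
      funext r s
      rw [Matrix.of_apply, Matrix.one_apply, dif_neg (by simp only [Fin.val_castLE]; omega), add_zero]
      simp only [Fin.val_castLE, Fin.ext_iff]
    rw [this, Matrix.det_one]
  have hc : c = 1 := by
    have h2 := h1 z'
    simp only [h] at h2
    have h3 : ∑ ρ : Fin b → Fin N, (∏ r, g (Fin.castLE hbN r) (ρ r)) * (c * mn (dfm v p b q z) b ρ)
        = c * ∑ ρ : Fin b → Fin N, (∏ r, g (Fin.castLE hbN r) (ρ r)) * mn (dfm v p b q z) b ρ := by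
      rw [Finset.mul_sum]; exact Finset.sum_congr rfl fun _ _ => by ring
    rw [h3, h1 z, mul_one] at h2
    exact h2
  subst hc
  simp only [one_mul] at h
  funext cd
  obtain ⟨c, d⟩ := cd
  have h2 : ∀ z : Fin (b - p) × Fin (q - b) → ℂ,
      ∑ ρ : Fin b → Fin N, (∏ r, g (if r.1 = p + c.1 then ⟨b + d.1, by omega⟩ else
        Fin.castLE hbN r) (ρ r)) * mn (dfm v p b q z) b ρ = z (c, d) := by
    intro z
    rw [hval z (fun r => if r.1 = p + c.1 then ⟨b + d.1, by omega⟩ else Fin.castLE hbN r)]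
    have hpc : p + c.1 < b := by omega
    set w : Fin b → ℂ := fun s => if h : p ≤ s.1 then z (⟨s.1 - p, by omega⟩, d) else 0 with hw
    have h5 : (Matrix.of fun r s : Fin b =>
        (if ((if r.1 = p + c.1 then ⟨b + d.1, by omega⟩ else Fin.castLE hbN r : Fin N)).1 = s.1
          then (1 : ℂ) else 0) +
          if h : p ≤ s.1 ∧ b ≤ ((if r.1 = p + c.1 then ⟨b + d.1, by omega⟩ else
            Fin.castLE hbN r : Fin N)).1 ∧ ((if r.1 = p + c.1 then ⟨b + d.1, by omega⟩ else
            Fin.castLE hbN r : Fin N)).1 < q then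
            z (⟨s.1 - p, by omega⟩, ⟨((if r.1 = p + c.1 then ⟨b + d.1, by omega⟩ else
            Fin.castLE hbN r : Fin N)).1 - b, by omega⟩) else 0) =
        Matrix.updateRow (1 : Matrix (Fin b) (Fin b) ℂ) ⟨p + c.1, hpc⟩ w := by
      funext r s
      by_cases hr : r.1 = p + c.1
      · have hr2 : r = ⟨p + c.1, hpc⟩ := Fin.ext hr
        subst hr2
        rw [Matrix.updateRow_self, Matrix.of_apply, hw]
        simp only [if_true]
        rw [if_neg (by omega), zero_add]
        by_cases hs : p ≤ s.1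
        · rw [dif_pos ⟨hs, by omega, by omega⟩, dif_pos hs]
          congr 2
          exact Fin.ext (by simp)
        · rw [dif_neg (fun h => hs h.1), dif_neg hs]
      · rw [Matrix.updateRow_ne (fun h => hr (by rw [h])), Matrix.of_apply, Matrix.one_apply]
        simp only [if_neg hr, Fin.val_castLE]
        rw [dif_neg (by omega), add_zero]
        simp only [Fin.ext_iff]
    rw [h5, ← Matrix.cramer_transpose_apply, Matrix.transpose_one, Matrix.cramer_one]
    simp only [Module.End.one_apply, hw]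
    rw [dif_pos (by omega)]
    congr 2
    exact Fin.ext (by simp)
  have h3 := h2 z
  have h4 := h2 z'
  rw [← h4, ← h3]
  exact Finset.sum_congr rfl fun ρ _ => by rw [h ρ]

end Pool.Agent.H40.Flag
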